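import Pool.Agent.Lib.NotI.Avg
import Pool.Agent.Lib.MTU.Final

/-!
# NotI.Adv (MP_e46137_lc): the average case bound for nondeterministic machines
-/

namespace NotI

theorem adv_prop : ∃ c : ℝ, 0 < c ∧ AdvProp c := by
  obtain ⟨c, hc, h⟩ := MTU.adv
  refine ⟨c, hc, ?_⟩
  intro n S d T s t hn hS hSn hd hdn hst hC W _ M hW
  exact h n S d T s t hn hS hSn hd hdn hst hC W hW M

end NotI
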