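import Pool.Agent.Lib.NotG.Num
import Pool.Agent.Lib.MTX.Lower

/-!
# Module NotI.Num (MP_e46137_lc): numerical lemmas

* `num_red11`: as `NotG.num_red` with the exponent `11` instead of `9` (copy the proof in
  `NotG/Num.lean` and change the constants).
* `phi_num`: with `x = logb 2 n`, `y = logb 2 d ≤ x`, `lam = logb 2 (n / S) = x - logb 2 S`,
  `kap = min y lam`, `phi = kap * lam - kap ^ 2 / 2` (see the definitions `MTX.phi`, `MTX.err`,
  `MTX.lam`, `MTX.kap`): `logb 2 S ≤ 3 * logb 2 x + logb 2 A`. If `y ≤ lam`: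
  `phi = mainTerm - y * logb 2 S`. If `lam < y`: `mainTerm ≤ x ^ 2 / 2`, `phi = lam ^ 2 / 2` (if
  `lam ≥ 0`; `S ≤ n`), `mainTerm - phi ≤ (x - lam) * x ≤ logb 2 S * (y + logb 2 S)`. And
  `MTX.err n S d ≤ errTerm n d`.
-/

namespace NotI

open Pool.Agent.Lib.Pe46137X

private theorem sq_le11 {a x t : ℝ} (ha : 0 ≤ a) (hx : 1 ≤ x) (ht : 0 ≤ t)
    (h : t ≤ a + 11 * Real.logb 2 x) : t ^ 2 ≤ (a + 44) ^ 2 * x := by
  have h1 := NotG.logb_le_sqrt hx
  have h2 : 1 ≤ √x := by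
    rw [Real.one_le_sqrt]
    exact hx
  have h3 : t ≤ (a + 44) * √x := by
    have : a ≤ a * √x := le_mul_of_one_le_right ha h2
    linarith
  calc t ^ 2 ≤ ((a + 44) * √x) ^ 2 := pow_le_pow_left₀ ht h3 2
    _ = (a + 44) ^ 2 * x := by
      rw [mul_pow, Real.sq_sqrt (by linarith)]

theorem num_red11 (C : ℝ) (hC : 0 < C) : ∃ C' : ℝ, 0 < C' ∧ ∀ n ℓ : ℕ, 2 ≤ n → 1 ≤ ℓ → ℓ ≤ n →
    mainTerm n ℓ ≤ C' * errTerm n ℓ ∨
      ∃ ℓ' : ℕ, 2 ≤ ℓ' ∧ ℓ' ≤ ℓ ∧ C * Real.logb 2 n ^ 11 * ℓ' ≤ n ∧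
        mainTerm n ℓ ≤ mainTerm n ℓ' + C' * errTerm n ℓ ∧ errTerm n ℓ' ≤ errTerm n ℓ := by
  set a : ℝ := max 0 (Real.logb 2 (2 * C)) with ha
  have ha0 : 0 ≤ a := le_max_left _ _
  have ha1 : Real.logb 2 (2 * C) ≤ a := le_max_right _ _
  refine ⟨(a + 44) ^ 2, by positivity, fun n ℓ hn hℓ hℓn => ?_⟩
  have hn0 : (0 : ℝ) < n := by
    have : 0 < n := by omega
    exact_mod_cast this
  have hℓ0 : (0 : ℝ) < ℓ := by exact_mod_cast hℓ
  set x : ℝ := Real.logb 2 n with hx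
  set y : ℝ := Real.logb 2 ℓ with hy
  have hx1 : 1 ≤ x := by
    rw [hx, Real.le_logb_iff_rpow_le (by norm_num) hn0, Real.rpow_one]
    exact_mod_cast hn
  have hx0 : 0 < x := by linarith
  have hy0 : 0 ≤ y := Real.logb_nonneg (by norm_num) (by exact_mod_cast hℓ)
  have hyx : y ≤ x := Real.logb_le_logb_of_le (by norm_num) hℓ0 (by exact_mod_cast hℓn)
  have hlx : 0 ≤ Real.logb 2 x := Real.logb_nonneg (by norm_num) hx1
  have hE : x ≤ errTerm n ℓ := by
    unfold errTerm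
    rw [← hx, ← hy]
    have := mul_nonneg hy0 hlx
    linarith
  have hCx : (a + 44) ^ 2 * x ≤ (a + 44) ^ 2 * errTerm n ℓ :=
    mul_le_mul_of_nonneg_left hE (by positivity)
  have hx9 : 0 < C * x ^ 11 := by positivity
  have hlog9 : Real.logb 2 (2 * (C * x ^ 11)) = Real.logb 2 (2 * C) + 11 * Real.logb 2 x := by
    rw [← mul_assoc, Real.logb_mul (by positivity) (by positivity), Real.logb_pow]
    norm_num
  rcases Nat.lt_or_ge 1 ℓ with hℓ2 | hℓ2
  swap
  · left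
    have hℓ1 : ℓ = 1 := le_antisymm hℓ2 hℓ
    have hy1 : y = 0 := by rw [hy, hℓ1]; simp
    have h1 : mainTerm n ℓ = 0 := by
      unfold mainTerm
      rw [← hy, hy1]
      simp
    rw [h1]
    exact le_trans (by positivity) hCx
  rcases lt_or_ge (n : ℝ) (2 * (C * x ^ 11)) with hT | hT
  · left
    have h1 : x ≤ a + 11 * Real.logb 2 x := by
      have h2 : x ≤ Real.logb 2 (2 * (C * x ^ 11)) :=
        Real.logb_le_logb_of_le (by norm_num) hn0 hT.le
      rw [hlog9] at h2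
      linarith
    have h2 := sq_le11 ha0 hx1 hx0.le h1
    have h3 : mainTerm n ℓ ≤ x ^ 2 := by
      unfold mainTerm
      rw [← hx, ← hy]
      nlinarith [sq_nonneg y, mul_nonneg hx0.le (sub_nonneg.2 hyx)]
    linarith
  · right
    have hT2 : (2 : ℝ) ≤ n / (C * x ^ 11) := by
      rw [le_div_iff₀ hx9]
      exact hT
    have hT0 : (0 : ℝ) ≤ n / (C * x ^ 11) := by linarith
    have hf2 : 2 ≤ ⌊(n : ℝ) / (C * x ^ 11)⌋₊ := by
      apply Nat.le_floor
      exact_mod_cast hT2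
    rcases le_or_gt ℓ ⌊(n : ℝ) / (C * x ^ 11)⌋₊ with hlf | hlf
    · refine ⟨ℓ, hℓ2, le_rfl, ?_, ?_, le_rfl⟩
      · have h1 : (ℓ : ℝ) ≤ n / (C * x ^ 11) := (Nat.le_floor_iff hT0).1 hlf
        rw [le_div_iff₀ hx9] at h1
        linarith
      · have h1 : 0 ≤ (a + 44) ^ 2 * errTerm n ℓ := le_trans (by positivity) hCx
        linarith
    · set m : ℕ := ⌊(n : ℝ) / (C * x ^ 11)⌋₊ with hm
      have hm0 : (0 : ℝ) < m := by
        have : 0 < m := by omega
        exact_mod_cast this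
      have hmT : (m : ℝ) ≤ n / (C * x ^ 11) := Nat.floor_le hT0
      have hmT2 : (n : ℝ) / (C * x ^ 11) < m + 1 := Nat.lt_floor_add_one _
      have hmm : (n : ℝ) ≤ m * (2 * (C * x ^ 11)) := by
        have h1 : (2 : ℝ) ≤ m := by exact_mod_cast hf2
        rw [div_lt_iff₀ hx9] at hmT2
        nlinarith [hx9]
      set z : ℝ := Real.logb 2 m with hz
      have hzy : z ≤ y := Real.logb_le_logb_of_le (by norm_num) hm0 (by exact_mod_cast hlf.le)
      have hz0 : 0 ≤ z := Real.logb_nonneg (by norm_num) (by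
        have : 1 ≤ m := by omega
        exact_mod_cast this)
      have hxz : x - z ≤ a + 11 * Real.logb 2 x := by
        have h2 : x ≤ Real.logb 2 (m * (2 * (C * x ^ 11))) :=
          Real.logb_le_logb_of_le (by norm_num) hn0 hmm
        rw [Real.logb_mul (by positivity) (by positivity), hlog9, ← hz] at h2
        linarith
      have hsq := sq_le11 ha0 hx1 (by linarith : (0 : ℝ) ≤ x - z) hxz
      refine ⟨m, hf2, hlf.le, ?_, ?_, ?_⟩
      · rw [le_div_iff₀ hx9] at hmT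
        linarith
      · have h1 : mainTerm n ℓ - mainTerm n m ≤ (x - z) ^ 2 := by
          unfold mainTerm
          rw [← hx, ← hy, ← hz]
          nlinarith [mul_nonneg (sub_nonneg.2 hzy) (sub_nonneg.2 hyx),
            mul_nonneg (sub_nonneg.2 hzy) (sub_nonneg.2 hzy),
            mul_nonneg (sub_nonneg.2 hyx) (sub_nonneg.2 hyx), sq_nonneg (x - z)]
        linarith
      · unfold errTerm
        rw [← hx, ← hy, ← hz]
        have := mul_le_mul_of_nonneg_right hzy hlx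
        linarith

theorem phi_num (A : ℝ) (hA : 1 ≤ A) : ∃ C' : ℝ, 0 < C' ∧ ∀ n d S : ℕ, 4 ≤ n → 2 ≤ d → d ≤ n →
    1 ≤ S → S ≤ n → (S : ℝ) ≤ A * Real.logb 2 n ^ 2 →
      mainTerm n d - C' * errTerm n d ≤ MTX.phi n S d ∧ MTX.err n S d ≤ C' * errTerm n d := by
  set a : ℝ := Real.logb 2 A with ha
  have ha0 : 0 ≤ a := Real.logb_nonneg (by norm_num) hA
  refine ⟨16 * (a + 2) ^ 2, by positivity, fun n d S hn hd hdn hS hSn hSA => ?_⟩
  have hn0 : (0 : ℝ) < n := by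
    have : 0 < n := by omega
    exact_mod_cast this
  have hd0 : (0 : ℝ) < d := by
    have : 0 < d := by omega
    exact_mod_cast this
  have hS0 : (0 : ℝ) < S := by exact_mod_cast hS
  obtain ⟨x, hx⟩ : ∃ x : ℝ, x = Real.logb 2 n := ⟨_, rfl⟩
  obtain ⟨y, hy⟩ : ∃ y : ℝ, y = Real.logb 2 d := ⟨_, rfl⟩
  obtain ⟨s, hs⟩ : ∃ s : ℝ, s = Real.logb 2 S := ⟨_, rfl⟩
  obtain ⟨w, hw⟩ : ∃ w : ℝ, w = Real.logb 2 x := ⟨_, rfl⟩
  have hx2 : 2 ≤ x := by
    rw [hx, Real.le_logb_iff_rpow_le (by norm_num) hn0]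
    have h1 : (4 : ℝ) ≤ n := by exact_mod_cast hn
    have h2 : (2 : ℝ) ^ (2 : ℝ) = 4 := by
      rw [Real.rpow_two]
      norm_num
    rw [h2]
    exact h1
  have hx0 : 0 < x := by linarith
  have hy1 : 1 ≤ y := by
    rw [hy, Real.le_logb_iff_rpow_le (by norm_num) hd0, Real.rpow_one]
    exact_mod_cast hd
  have hyx : y ≤ x := by
    rw [hx, hy]
    exact Real.logb_le_logb_of_le (by norm_num) hd0 (by exact_mod_cast hdn)
  have hs0 : 0 ≤ s := by
    rw [hs]
    exact Real.logb_nonneg (by norm_num) (by exact_mod_cast hS)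
  have hsx : s ≤ x := by
    rw [hx, hs]
    exact Real.logb_le_logb_of_le (by norm_num) hS0 (by exact_mod_cast hSn)
  have hw1 : 1 ≤ w := by
    rw [hw, Real.le_logb_iff_rpow_le (by norm_num) hx0, Real.rpow_one]
    exact hx2
  have hsw : s ≤ (a + 2) * w := by
    have h1 : s ≤ Real.logb 2 (A * x ^ 2) := by
      rw [hs]
      rw [← hx] at hSA
      exact Real.logb_le_logb_of_le (by norm_num) hS0 hSA
    rw [Real.logb_mul (by linarith) (by positivity), Real.logb_pow, ← ha, ← hw] at h1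
    have h2 : 0 ≤ a * (w - 1) := mul_nonneg ha0 (by linarith)
    push_cast at h1
    linarith
  have hw2 : w ^ 2 ≤ 16 * x := by
    have h1 : w ≤ 4 * √x := by
      rw [hw]
      exact NotG.logb_le_sqrt (by linarith)
    calc w ^ 2 ≤ (4 * √x) ^ 2 := pow_le_pow_left₀ (by linarith) h1 2
      _ = 16 * x := by
        rw [mul_pow, Real.sq_sqrt hx0.le]
        norm_num
  have hs2 : s ^ 2 ≤ (a + 2) ^ 2 * (16 * x) := by
    calc s ^ 2 ≤ ((a + 2) * w) ^ 2 := pow_le_pow_left₀ hs0 hsw 2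
      _ = (a + 2) ^ 2 * w ^ 2 := mul_pow _ _ _
      _ ≤ (a + 2) ^ 2 * (16 * x) := mul_le_mul_of_nonneg_left hw2 (by positivity)
  have hys : y * s ≤ (a + 2) * (y * w) := by
    have := mul_le_mul_of_nonneg_left hsw (by linarith : (0 : ℝ) ≤ y)
    linarith
  have hyw : 0 ≤ y * w := mul_nonneg (by linarith) (by linarith)
  have hC1 : a + 2 ≤ 16 * (a + 2) ^ 2 := by nlinarith
  have hC2 : 1 ≤ 16 * (a + 2) ^ 2 := by nlinarith
  have hE : errTerm n d = x + y * w := by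
    unfold errTerm
    rw [← hx, ← hy, ← hw]
  have hM : mainTerm n d = y * x - y ^ 2 / 2 := by
    unfold mainTerm
    rw [← hx, ← hy]
  have hlam : MTX.lam n S = x - s := by
    unfold MTX.lam
    rw [Real.logb_div hn0.ne' hS0.ne', ← hx, ← hs]
  have hkap : MTX.kap n S d = min y (x - s) := by
    unfold MTX.kap
    rw [hlam, ← hy]
  have hphi : MTX.phi n S d = min y (x - s) * (x - s) - min y (x - s) ^ 2 / 2 := by
    unfold MTX.phi
    rw [hkap, hlam]
  have herr : MTX.err n S d = x + min y (x - s) * w := by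
    unfold MTX.err
    rw [hkap, ← hx, ← hw]
  have h16 : (a + 2) * (y * w) ≤ 16 * (a + 2) ^ 2 * (y * w) :=
    mul_le_mul_of_nonneg_right hC1 hyw
  rw [hE, hM, hphi, herr]
  refine ⟨?_, ?_⟩
  · rcases le_or_gt y (x - s) with h | h
    · rw [min_eq_left h]
      have h1 : 0 ≤ 16 * (a + 2) ^ 2 * x := by positivity
      nlinarith
    · rw [min_eq_right h.le]
      have h1 : x * s ≤ y * s + s ^ 2 := by nlinarith
      have h2 : y * x - y ^ 2 / 2 ≤ x ^ 2 / 2 := by nlinarith [sq_nonneg (x - y)]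
      have h3 : x ^ 2 / 2 - (x - s) ^ 2 / 2 ≤ x * s := by nlinarith [sq_nonneg s]
      nlinarith
  · have h1 : min y (x - s) * w ≤ y * w :=
      mul_le_mul_of_nonneg_right (min_le_left _ _) (by linarith)
    have h2 : 0 ≤ x + y * w := by linarith
    have h3 : x + y * w ≤ 16 * (a + 2) ^ 2 * (x + y * w) := le_mul_of_one_le_left h2 hC2
    linarith

end NotI
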