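import Pool.Agent.Lib.NotI.MachB
import Pool.Agent.Lib.NotI.Num

/-!
# NotI.Avg (MP_e46137_lc): the average case for nondeterministic networks
-/

namespace NotI

open Finset Classical Pool.Agent.Lib.Pe46137 Pool.Agent.Lib.Pe46137X MonSize

/-- the average case bound for nondeterministic machines (file MTU) -/
def AdvProp (c : ℝ) : Prop :=
  ∀ (n S d T : ℕ) (s t : Fin n), 4 ≤ n → 1 ≤ S → S ≤ n → 2 ≤ d → d ≤ n → s ≠ t →
    c * Real.logb 2 n ^ 9 * S * d ≤ n →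
    ∀ (W : Type) [Fintype W] (M : Unreach.Mach n W), Fintype.card W ≤ 2 ^ S →
      Unreach.accCut M T 0 s t - Unreach.accPath M T d s t ≤
        T * (2 : ℝ) ^ (-(MTX.phi n S d - c * MTX.err n S d))

/-- the probability that `f` accepts a random cut minus the probability that it accepts a random
path -/
noncomputable def coAdv {n : ℕ} (f : Set (Fin n × Fin n) → Prop) (d : ℕ) (s t : Fin n) : ℝ :=
  (((cuts n s t).filter (fun C => f (cutEdges C))).card : ℝ) / (cuts n s t).card -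
    (((seqs n (d - 1) s t).filter (fun P => f (pathEdges s t P))).card : ℝ) /
      (seqs n (d - 1) s t).card

theorem coAdv_le_one {n : ℕ} (f : Set (Fin n × Fin n) → Prop) (d : ℕ) (s t : Fin n) :
    coAdv f d s t ≤ 1 := by
  unfold coAdv
  have h8 : (0 : ℝ) ≤ (((seqs n (d - 1) s t).filter (fun P => f (pathEdges s t P))).card : ℝ) /
      (seqs n (d - 1) s t).card := by positivity
  have h9 : (((cuts n s t).filter (fun C => f (cutEdges C))).card : ℝ) /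
      (cuts n s t).card ≤ 1 := by
    apply div_le_one_of_le₀
    · exact_mod_cast card_filter_le _ _
    · positivity
  linarith

theorem co_average {c : ℝ} (hc : 0 < c) (hadv : AdvProp c) : ∃ C : ℝ, 2 ≤ C ∧
    ∀ (n ℓ m : ℕ) (s t : Fin n), s ≠ t → 1 ≤ ℓ → ℓ ≤ n → C * Real.logb 2 n ^ 11 * ℓ ≤ n →
    ∀ f : Set (Fin n × Fin n) → Prop, ByCo m f →
      coAdv f ℓ s t ≤ m * (2 : ℝ) ^ (-(mainTerm n ℓ - C * errTerm n ℓ)) := by
  obtain ⟨C', hC', hphi⟩ := phi_num 16 (by norm_num)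
  refine ⟨2 ^ 10 + 16 * c + C' + c * C' + 20, by nlinarith [mul_pos hc hC'], ?_⟩
  intro n ℓ m s t hst hℓ hℓn hC f hf
  obtain ⟨CC, hCC⟩ : ∃ CC, CC = 2 ^ 10 + 16 * c + C' + c * C' + 20 := ⟨_, rfl⟩
  have hcC' := mul_pos hc hC'
  rw [← hCC] at hC ⊢
  have hCC0 : 2 ^ 10 ≤ CC := by
    rw [hCC]
    linarith
  have hn : 2 ≤ n := by
    by_contra hcon
    have : n = 0 ∨ n = 1 := by omega
    rcases this with rfl | rfl
    · exact s.elim0
    · exact hst (Subsingleton.elim s t)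
  obtain ⟨l1, l2, l3⟩ := MTN.UFormAux.log_facts hn
  obtain ⟨e1, e2, e3, e4, e5, e6, e7⟩ := MTN.UFormAux.small hn hℓ hℓn
  have hm : 1 ≤ m := by
    obtain ⟨N, -⟩ := hf
    have := N.source.2
    omega
  have hm0 : (1 : ℝ) ≤ m := by exact_mod_cast hm
  have hℓ0 : (1 : ℝ) ≤ ℓ := by exact_mod_cast hℓ
  have hx11 : (1 : ℝ) ≤ Real.logb 2 n ^ 11 := one_le_pow₀ l1
  have hx9 : (1 : ℝ) ≤ Real.logb 2 n ^ 9 := one_le_pow₀ l1
  have hn10' : 2 ^ 10 ≤ n := by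
    have h8 : ((2 : ℝ) ^ 10) ≤ n := by
      refine le_trans ?_ hC
      calc (2 : ℝ) ^ 10 = 2 ^ 10 * 1 * 1 := by ring
        _ ≤ CC * Real.logb 2 n ^ 11 * ℓ := by
          gcongr
    exact_mod_cast h8
  have hle1 := coAdv_le_one f ℓ s t
  have htriv : mainTerm n ℓ - CC * errTerm n ℓ ≤ Real.logb 2 m →
      coAdv f ℓ s t ≤ m * (2 : ℝ) ^ (-(mainTerm n ℓ - CC * errTerm n ℓ)) := by
    intro h8
    refine hle1.trans ?_
    rw [Real.le_logb_iff_rpow_le (by norm_num) (by linarith)] at h8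
    rw [Real.rpow_neg (by norm_num), ← div_eq_mul_inv, le_div_iff₀ (by positivity), one_mul]
    exact h8
  have hlogm : 0 ≤ Real.logb 2 (m : ℝ) := Real.logb_nonneg (by norm_num) hm0
  rcases Nat.lt_or_ge ℓ 2 with hℓ2 | hℓ2
  · apply htriv
    have hℓ1 : ℓ = 1 := by omega
    subst hℓ1
    have h8 : mainTerm n 1 = 0 := by
      unfold mainTerm
      simp
    rw [h8]
    nlinarith
  by_cases hmbig : 2 ^ (Nat.log 2 n + 1) ^ 2 < m
  · apply htriv
    have h8 : (((Nat.log 2 n + 1 : ℕ) : ℝ)) ^ 2 ≤ Real.logb 2 m := by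
      rw [Real.le_logb_iff_rpow_le (by norm_num) (by linarith)]
      have h9 : (2 : ℝ) ^ ((((Nat.log 2 n + 1 : ℕ) : ℝ)) ^ 2) =
          ((2 ^ (Nat.log 2 n + 1) ^ 2 : ℕ) : ℝ) := by
        rw [← Nat.cast_pow, Real.rpow_natCast]
        push_cast
        rfl
      rw [h9]
      exact_mod_cast hmbig.le
    have h9 : Real.logb 2 (n : ℝ) ^ 2 ≤ (((Nat.log 2 n + 1 : ℕ) : ℝ)) ^ 2 :=
      pow_le_pow_left₀ (by linarith) l3 2
    nlinarith
  push Not at hmbig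
  obtain ⟨l, hl⟩ : ∃ l, Nat.log 2 n + 1 = l := ⟨_, rfl⟩
  rw [hl] at hmbig l2 l3
  have hl11 : 11 ≤ l := by
    have h8 : 10 ≤ Nat.log 2 n := Nat.le_log_of_pow_le (by norm_num) hn10'
    omega
  have hn2 : n < 2 ^ l := by
    rw [← hl]
    exact Nat.lt_pow_succ_log_self (by norm_num) n
  have hn3 : 2 ^ (l - 1) ≤ n := by
    have h8 := Nat.pow_log_le_self 2 (by omega : n ≠ 0)
    have h9 : l - 1 = Nat.log 2 n := by omega
    rw [h9]
    exact h8
  obtain ⟨S, hS⟩ : ∃ S, S = 2 * l ^ 2 + l + 1 := ⟨_, rfl⟩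
  have hSn : S ≤ n := by
    refine le_trans ?_ hn3
    rw [hS]
    clear hS hmbig l2 l3 hn2 hn3
    obtain ⟨j, rfl⟩ : ∃ j, l = j + 11 := ⟨l - 11, by omega⟩
    have h8 : j + 11 - 1 = j + 10 := by omega
    rw [h8]
    clear h8 hl hl11
    induction j with
    | zero => norm_num
    | succ k ih =>
      have h9 : 2 * (k + 1 + 11) ^ 2 + (k + 1 + 11) + 1 =
          (2 * (k + 11) ^ 2 + (k + 11) + 1) + (4 * (k + 11) + 3) := by ring
      have h10 : 4 * (k + 11) + 3 ≤ 2 * (k + 11) ^ 2 + (k + 11) + 1 := by nlinarith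
      have h11 : 2 ^ (k + 1 + 10) = 2 ^ (k + 10) * 2 := by
        rw [← pow_succ]
      rw [h9, h11]
      omega
  have hcard : Fintype.card (Fin m ⊕ (Fin m × Fin m × Fin n)) ≤ 2 ^ S := by
    rw [Fintype.card_sum, Fintype.card_prod, Fintype.card_prod, Fintype.card_fin,
      Fintype.card_fin]
    have h8 : m * (m * n) ≤ 2 ^ (l ^ 2) * (2 ^ (l ^ 2) * 2 ^ l) :=
      Nat.mul_le_mul hmbig (Nat.mul_le_mul hmbig hn2.le)
    have h9 : 2 ^ (l ^ 2) * (2 ^ (l ^ 2) * 2 ^ l) = 2 ^ (2 * l ^ 2 + l) := by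
      rw [← pow_add, ← pow_add]
      congr 1
      ring
    have h10 : 2 ^ (l ^ 2) ≤ 2 ^ (2 * l ^ 2 + l) :=
      Nat.pow_le_pow_right (by norm_num) (by nlinarith)
    rw [hS, pow_succ]
    omega
  have hSreal : (S : ℝ) ≤ 16 * Real.logb 2 n ^ 2 := by
    have h8 : (l : ℝ) ≤ 2 * Real.logb 2 n := by linarith
    have h9 : (0 : ℝ) ≤ l := Nat.cast_nonneg _
    have h10 : (l : ℝ) ^ 2 ≤ (2 * Real.logb 2 n) ^ 2 := pow_le_pow_left₀ h9 h8 2
    have h11 : (11 : ℝ) ≤ l := by exact_mod_cast hl11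
    rw [hS]
    push_cast
    nlinarith
  have hCS : c * Real.logb 2 n ^ 9 * S * ℓ ≤ n := by
    refine le_trans ?_ hC
    calc c * Real.logb 2 n ^ 9 * S * ℓ
        ≤ c * Real.logb 2 n ^ 9 * (16 * Real.logb 2 n ^ 2) * ℓ := by gcongr
      _ = (16 * c) * Real.logb 2 n ^ 11 * ℓ := by ring
      _ ≤ CC * Real.logb 2 n ^ 11 * ℓ := by
        gcongr
        rw [hCC]
        linarith
  obtain ⟨M, hM⟩ := byCo_mach s hf
  have h9 := hadv n S ℓ (2 * m) s t (by omega) (by omega) hSn hℓ2 hℓn hst hCS _ M hcard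
  rw [← adv_eq_mach s t hM] at h9
  obtain ⟨h10, h11⟩ := hphi n ℓ S (by omega) hℓ2 hℓn (by omega) hSn hSreal
  unfold coAdv
  refine h9.trans ?_
  have h12 : c * MTX.err n S ℓ ≤ c * (C' * errTerm n ℓ) := mul_le_mul_of_nonneg_left h11 hc.le
  have h15 : (2 : ℝ) ^ (-(MTX.phi n S ℓ - c * MTX.err n S ℓ)) * 2 ≤
      (2 : ℝ) ^ (-(mainTerm n ℓ - CC * errTerm n ℓ)) := by
    have h16 : (2 : ℝ) ^ (-(MTX.phi n S ℓ - c * MTX.err n S ℓ)) * 2 =
        (2 : ℝ) ^ (-(MTX.phi n S ℓ - c * MTX.err n S ℓ) + 1) := by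
      rw [Real.rpow_add (by norm_num), Real.rpow_one]
    rw [h16]
    apply Real.rpow_le_rpow_of_exponent_le (by norm_num)
    rw [hCC]
    nlinarith
  calc ((2 * m : ℕ) : ℝ) * (2 : ℝ) ^ (-(MTX.phi n S ℓ - c * MTX.err n S ℓ))
      = m * ((2 : ℝ) ^ (-(MTX.phi n S ℓ - c * MTX.err n S ℓ)) * 2) := by
        push_cast
        ring
    _ ≤ m * (2 : ℝ) ^ (-(mainTerm n ℓ - CC * errTerm n ℓ)) :=
        mul_le_mul_of_nonneg_left h15 (Nat.cast_nonneg _)

end NotI
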