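import Pool.Agent.Lib.NotG.Num

/-!
# NotI.Thr (MP_e46137_lc): numerics of the threshold
-/

namespace NotI

open Pool.Agent.Lib.Pe46137X

theorem thr_num (C D : ℝ) (hC : 0 < C) (hD : 0 ≤ D) : ∃ y₀ : ℝ, 1 ≤ y₀ ∧ ∀ y, y₀ ≤ y →
    D < y / 2 - C * (1 + Real.logb 2 y) := by
  refine ⟨(10 * C + 2 * D + 2) ^ 2, by nlinarith, ?_⟩
  intro y hy
  have h1 : 1 ≤ 10 * C + 2 * D + 2 := by linarith
  have hy1 : 1 ≤ y := by
    have : 1 ≤ (10 * C + 2 * D + 2) ^ 2 := one_le_pow₀ h1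
    linarith
  have h2 : 10 * C + 2 * D + 2 ≤ √y := Real.le_sqrt_of_sq_le hy
  have h3 : √y * √y = y := Real.mul_self_sqrt (by linarith)
  have h4 : Real.logb 2 y ≤ 4 * √y := by
    have h5 := Real.add_one_le_exp (Real.log √y)
    have h6 : 0 < √y := by linarith
    rw [Real.exp_log h6] at h5
    have h7 : Real.log √y = Real.log y / 2 := Real.log_sqrt (by linarith)
    have h8 : (1 : ℝ) / 2 ≤ Real.log 2 := by
      have := Real.log_two_gt_d9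
      linarith
    rw [Real.logb, div_le_iff₀ (by linarith)]
    nlinarith
  have h5 : C * Real.logb 2 y ≤ C * (4 * √y) := mul_le_mul_of_nonneg_left h4 hC.le
  nlinarith

/-- the parameters of the lower bound for `W ≤ n ^ (a + 1 - ε)` -/
theorem thr (C : ℝ) (hC : 0 < C) (a B : ℕ) (ε : ℝ) (hε : 0 < ε) (hε1 : ε < 1) : ∃ n₀ : ℕ,
    ∀ n : ℕ, n₀ ≤ n → ∃ n' K : ℕ, 1 ≤ n' ∧ n' ≤ n ∧ 1 ≤ K ∧ K * n' ≤ n ∧ (n : ℝ) ^ (1 - ε) ≤ K ∧
      (B : ℝ) * Real.logb 2 n <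
        mainTerm n' n' - C * (errTerm n' n' + Real.logb 2 ((n ^ a : ℕ) * K)) := by
  obtain ⟨D, hD⟩ : ∃ D, D = (C * (a + 1) + B) * (2 / ε) := ⟨_, rfl⟩
  have hD0 : 0 ≤ D := by
    rw [hD]
    positivity
  obtain ⟨y₀, hy₀, hy⟩ := thr_num C D hC hD0
  obtain ⟨x₀, hx₀⟩ : ∃ x₀, x₀ = max (4 / ε) (2 * y₀ / ε) := ⟨_, rfl⟩
  obtain ⟨N, hN⟩ : ∃ N, N = ⌈x₀⌉₊ + 1 := ⟨_, rfl⟩
  refine ⟨2 ^ N, ?_⟩
  intro n hn
  obtain ⟨x, hx⟩ : ∃ x, x = Real.logb 2 (n : ℝ) := ⟨_, rfl⟩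
  have hn1 : 1 ≤ n := le_trans Nat.one_le_two_pow hn
  have hn0 : (0 : ℝ) < n := by exact_mod_cast hn1
  have hNx : (N : ℝ) ≤ x := by
    rw [hx, Real.le_logb_iff_rpow_le (by norm_num) hn0, Real.rpow_natCast]
    exact_mod_cast hn
  have hx0 : x₀ ≤ x := by
    refine le_trans ?_ hNx
    rw [hN]
    push_cast
    have := Nat.le_ceil x₀
    linarith
  have h1 : 4 / ε ≤ x := le_trans (by rw [hx₀]; exact le_max_left _ _) hx0
  have h2 : 2 * y₀ / ε ≤ x := le_trans (by rw [hx₀]; exact le_max_right _ _) hx0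
  rw [div_le_iff₀ hε] at h1 h2
  have hxpos : 0 < x := by
    by_contra hcon
    push Not at hcon
    nlinarith
  have hnx : (n : ℝ) = (2 : ℝ) ^ x := by
    rw [hx, Real.rpow_logb (by norm_num) (by norm_num) hn0]
  have hn1' : (1 : ℝ) ≤ n := by exact_mod_cast hn1
  obtain ⟨K, hK⟩ : ∃ K, K = ⌈(n : ℝ) ^ (1 - ε)⌉₊ := ⟨_, rfl⟩
  have hpow1 : (1 : ℝ) ≤ (n : ℝ) ^ (1 - ε) := Real.one_le_rpow hn1' (by linarith)
  have hpown : (n : ℝ) ^ (1 - ε) ≤ n := by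
    calc (n : ℝ) ^ (1 - ε) ≤ (n : ℝ) ^ (1 : ℝ) := Real.rpow_le_rpow_of_exponent_le hn1' (by linarith)
      _ = n := Real.rpow_one _
  have hK1 : (n : ℝ) ^ (1 - ε) ≤ K := by
    rw [hK]
    exact Nat.le_ceil _
  have hK2 : (K : ℝ) ≤ 2 * (n : ℝ) ^ (1 - ε) := by
    have := Nat.ceil_lt_add_one (by linarith : 0 ≤ (n : ℝ) ^ (1 - ε))
    rw [← hK] at this
    linarith
  have hKn : K ≤ n := by
    rw [hK]
    exact Nat.ceil_le.2 hpown
  have hK0 : 1 ≤ K := by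
    have : (1 : ℝ) ≤ K := hpow1.trans hK1
    exact_mod_cast this
  have hK0' : (0 : ℝ) < K := by exact_mod_cast hK0
  obtain ⟨n', hn'⟩ : ∃ n', n' = n / K := ⟨_, rfl⟩
  have hn'1 : 1 ≤ n' := by
    rw [hn', Nat.one_le_div_iff hK0]
    exact hKn
  have hn'n : n' ≤ n := by
    rw [hn']
    exact Nat.div_le_self n K
  have hKn' : K * n' ≤ n := by
    rw [hn']
    exact Nat.mul_div_le n K
  have hn'0 : (0 : ℝ) < n' := by exact_mod_cast hn'1
  -- `n ^ ε ≤ 4 * n'`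
  have hbig : (n : ℝ) ^ ε ≤ 4 * n' := by
    have h3 : (n : ℝ) < K * (n' + 1) := by
      have h4 := Nat.lt_mul_div_succ n (by omega : 0 < K)
      rw [← hn'] at h4
      exact_mod_cast h4
    have h5 : (K : ℝ) * (n' + 1) ≤ K * (2 * n') := by
      have : (1 : ℝ) ≤ n' := by exact_mod_cast hn'1
      apply mul_le_mul_of_nonneg_left _ hK0'.le
      linarith
    have h6 : (K : ℝ) * (2 * n') ≤ 2 * (n : ℝ) ^ (1 - ε) * (2 * n') :=
      mul_le_mul_of_nonneg_right hK2 (by linarith)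
    have h7 : (n : ℝ) = (n : ℝ) ^ (1 - ε) * (n : ℝ) ^ ε := by
      rw [← Real.rpow_add hn0, sub_add_cancel, Real.rpow_one]
    have h8 : (n : ℝ) ^ (1 - ε) * (n : ℝ) ^ ε < (n : ℝ) ^ (1 - ε) * (4 * n') := by
      calc (n : ℝ) ^ (1 - ε) * (n : ℝ) ^ ε = n := h7.symm
        _ < 2 * (n : ℝ) ^ (1 - ε) * (2 * n') := by linarith
        _ = (n : ℝ) ^ (1 - ε) * (4 * n') := by ring
    exact (lt_of_mul_lt_mul_left h8 (by linarith)).le
  obtain ⟨y, hy'⟩ : ∃ y, y = Real.logb 2 (n' : ℝ) := ⟨_, rfl⟩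
  have hyx : ε * x - 2 ≤ y := by
    have h3 : Real.logb 2 ((n : ℝ) ^ ε) ≤ Real.logb 2 (4 * n') :=
      Real.logb_le_logb_of_le (by norm_num) (by positivity) hbig
    rw [Real.logb_rpow_eq_mul_logb_of_pos hn0, Real.logb_mul (by norm_num) hn'0.ne', ← hx,
      ← hy'] at h3
    have h4 : Real.logb 2 (4 : ℝ) = 2 := by
      rw [show (4 : ℝ) = 2 ^ (2 : ℝ) by norm_num, Real.logb_rpow (by norm_num) (by norm_num)]
    linarith
  have hyx2 : ε * x / 2 ≤ y := by nlinarith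
  have hyy : y₀ ≤ y := by nlinarith
  have hy1 : 1 ≤ y := hy₀.trans hyy
  refine ⟨n', K, hn'1, hn'n, hK0, hKn', hK1, ?_⟩
  have hmain : mainTerm n' n' = y ^ 2 / 2 := by
    unfold mainTerm
    rw [← hy']
    ring
  have herr : errTerm n' n' = y + y * Real.logb 2 y := by
    unfold errTerm
    rw [← hy']
  have hlogLK : Real.logb 2 (((n ^ a : ℕ) : ℝ) * K) ≤ (a + 1) * x := by
    have h3 : ((n ^ a : ℕ) : ℝ) * K ≤ (n : ℝ) ^ (a + 1) := by
      rw [pow_succ]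
      push_cast
      apply mul_le_mul_of_nonneg_left _ (by positivity)
      exact_mod_cast hKn
    have h4 : Real.logb 2 (((n ^ a : ℕ) : ℝ) * K) ≤ Real.logb 2 ((n : ℝ) ^ (a + 1)) := by
      apply Real.logb_le_logb_of_le (by norm_num) _ h3
      have : (0 : ℝ) < ((n ^ a : ℕ) : ℝ) := by
        push_cast
        positivity
      positivity
    rw [Real.logb_pow, ← hx] at h4
    push_cast at h4 ⊢
    exact h4
  rw [hmain, herr, ← hx]
  have h3 := hy y hyy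
  -- multiply by `y`
  have h4 : D * y < (y / 2 - C * (1 + Real.logb 2 y)) * y :=
    mul_lt_mul_of_pos_right h3 (by linarith)
  have h5 : (C * (a + 1) + B) * x ≤ D * y := by
    have h6 : (C * (a + 1) + B) * x = (C * (a + 1) + B) * (2 / ε) * (ε * x / 2) := by
      field_simp
    rw [h6, ← hD]
    exact mul_le_mul_of_nonneg_left hyx2 hD0
  have h7 : C * Real.logb 2 (((n ^ a : ℕ) : ℝ) * K) ≤ C * ((a + 1) * x) :=
    mul_le_mul_of_nonneg_left hlogLK hC.le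
  nlinarith

end NotI
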