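import Pool.Agent.Lib.NotI.Poly

/-!
# Module NotI.IS (MP_e46137_lc): Immerman-Szelepcsenyi relative to a set of inputs

`G X` is a digraph on `Fin n` for each input `X`. Both `(u, v) ∈ G X` and `(u, v) ∉ G X` have networks
with at most `B ^ a` states on the inputs in `𝒳`, `n + 1 ≤ B`. Then `¬ Reachable (G X) s t` has one
with at most `B ^ (a + 100)` states (no attempt at a good exponent; use `Rel.mono`).

Let `D d` be the set of the vertices reachable from `s` by at most `d` arcs, `c d` its cardinality.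
* `v ∈ D d` (`d ≤ n`): `rel_comp` with the nodes `Fin (n + 1) × Fin n`, edges `(i, u) → (i + 1, v)` if
  `u = v` (true) or `(u, v) ∈ G X`; from `(0, s)` to `(d, v)`.
* `cert d c v`: at least `c` vertices `u` with `u ∈ D d`, `u ≠ v`, `(u, v) ∉ G X` (`rel_thr`). If
  `c = c d` this is equivalent to `v ∉ D (d + 1)`.
* `cnt d c c'`: at least `c'` vertices `v` with `v ∈ D (d + 1)` and at least `n - c'` vertices `v` with
  `cert d c v`. If `c = c d` this is equivalent to `c' = c (d + 1)`.
* `rel_comp` with the nodes `Option (Fin (n + 1) × Fin (n + 1))`: edges `(d, c) → (d + 1, c')` given by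
  `cnt d c c'`, edges `(n, c) → none` given by: at least `c` vertices `u ≠ t` with `u ∈ D n`; from
  `(0, 1)` to `none`. `(d, c)` is reachable iff `c = c d`; and `D n` is the set of all vertices
  reachable from `s` (the sets `D d` grow strictly until they are closed).
-/

namespace NotI

open NotG Finset Classical Pool.Agent.Lib.Pe46137

variable {E : Type}

namespace ISAux

/-- reachable by at most `d` arcs -/
def W {n : ℕ} (G : Set (Fin n × Fin n)) (s : Fin n) : ℕ → Fin n → Prop
  | 0, v => v = s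
  | d + 1, v => ∃ u, W G s d u ∧ (u = v ∨ (u, v) ∈ G)

theorem layer {α : Type} {N : ℕ} (s : α) (S : ℕ → α → Prop) (R : ℕ → α → α → Prop)
    (h0 : ∀ v, S 0 v ↔ v = s) (h1 : ∀ d < N, ∀ v, S (d + 1) v ↔ ∃ u, S d u ∧ R d u v)
    (x : Fin (N + 1) × α) :
    Relation.ReflTransGen
      (fun x y : Fin (N + 1) × α => (y.1 : ℕ) = x.1 + 1 ∧ R x.1 x.2 y.2) (0, s) x ↔
      S x.1 x.2 := by
  constructor
  · intro h
    induction h with
    | refl => exact (h0 s).2 rfl
    | @tail b c _ hbc ih =>
      have hb : (b.1 : ℕ) < N := by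
        have := c.1.2
        have := hbc.1
        omega
      rw [hbc.1]
      exact (h1 _ hb _).2 ⟨_, ih, hbc.2⟩
  · obtain ⟨⟨d, hd⟩, v⟩ := x
    induction d generalizing v with
    | zero =>
      intro h
      rw [(h0 v).1 h]
      exact Relation.ReflTransGen.refl
    | succ d ih =>
      intro h
      obtain ⟨u, hu, hR⟩ := (h1 d (by omega) v).1 h
      exact Relation.ReflTransGen.tail (ih u (by omega) hu) ⟨rfl, hR⟩

section comb

variable {n : ℕ} (G : Set (Fin n × Fin n)) (s : Fin n)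

/-- the set of the vertices reachable by at most `d` arcs -/
noncomputable def D (d : ℕ) : Finset (Fin n) := univ.filter (fun v => W G s d v)

theorem mem_D {d : ℕ} {v : Fin n} : v ∈ D G s d ↔ W G s d v := by simp [D]

theorem W_mono {d : ℕ} {v : Fin n} (h : W G s d v) : W G s (d + 1) v := ⟨v, h, Or.inl rfl⟩

theorem card_D_zero : (D G s 0).card = 1 := by
  have : D G s 0 = {s} := by
    ext v
    rw [mem_D, Finset.mem_singleton]
    exact Iff.rfl
  rw [this, Finset.card_singleton]

theorem card_D_le (d : ℕ) : (D G s d).card ≤ n := by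
  simpa using Finset.card_le_univ (D G s d)

theorem reach_of_W {d : ℕ} {v : Fin n} (h : W G s d v) : Reachable G s v := by
  induction d generalizing v with
  | zero =>
    have : v = s := h
    rw [this]
    exact Relation.ReflTransGen.refl
  | succ d ih =>
    obtain ⟨u, hu, h | h⟩ := h
    · rw [← h]
      exact ih hu
    · exact Relation.ReflTransGen.tail (ih hu) h

theorem grow (d : ℕ) :
    d + 1 ≤ (D G s d).card ∨ ∀ u, W G s d u → ∀ v, (u, v) ∈ G → W G s d v := by
  induction d with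
  | zero => exact Or.inl (by rw [card_D_zero])
  | succ d ih =>
    by_cases hc : ∀ u, W G s d u → ∀ v, (u, v) ∈ G → W G s d v
    · right
      have hd : ∀ u, W G s (d + 1) u → W G s d u := by
        rintro u ⟨w, hw, h | h⟩
        · rw [← h]
          exact hw
        · exact hc w hw u h
      intro u hu v huv
      exact W_mono G s (hc u (hd u hu) v huv)
    · have h1 := ih.resolve_right hc
      left
      push Not at hc
      obtain ⟨u, hu, v, huv, hv⟩ := hc
      have hlt : (D G s d).card < (D G s (d + 1)).card := by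
        apply Finset.card_lt_card
        rw [Finset.ssubset_iff_of_subset
          (fun x hx => (mem_D G s).2 (W_mono G s ((mem_D G s).1 hx)))]
        exact ⟨v, (mem_D G s).2 ⟨u, hu, Or.inr huv⟩, fun h => hv ((mem_D G s).1 h)⟩
      omega

theorem W_s (d : ℕ) : W G s d s := by
  induction d with
  | zero => exact rfl
  | succ d ih => exact W_mono G s ih

theorem W_iff (t : Fin n) : W G s n t ↔ Reachable G s t := by
  refine ⟨reach_of_W G s, fun h => ?_⟩
  have hcl : ∀ u, W G s n u → ∀ v, (u, v) ∈ G → W G s n v := by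
    rcases grow G s n with h | h
    · have := card_D_le G s n
      omega
    · exact h
  unfold Reachable at h
  induction h with
  | refl => exact W_s G s n
  | tail _ hbc ih => exact hcl _ ih _ hbc

/-- certificate for `v ∉ D (d + 1)` -/
def Cert (d c : ℕ) (v : Fin n) : Prop :=
  c ≤ (univ.filter (fun u => W G s d u ∧ (u ≠ v ∧ (u, v) ∉ G))).card

theorem cert_iff (d : ℕ) (v : Fin n) : Cert G s d (D G s d).card v ↔ ¬ W G s (d + 1) v := by
  have hsub : univ.filter (fun u => W G s d u ∧ (u ≠ v ∧ (u, v) ∉ G)) ⊆ D G s d := by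
    intro u hu
    rw [mem_D]
    exact (Finset.mem_filter.1 hu).2.1
  constructor
  · intro h
    have heq := Finset.eq_of_subset_of_card_le hsub h
    rintro ⟨u, hu, huv⟩
    have hu' : u ∈ D G s d := (mem_D G s).2 hu
    rw [← heq] at hu'
    have h2 := (Finset.mem_filter.1 hu').2.2
    rcases huv with h3 | h3
    · exact h2.1 h3
    · exact h2.2 h3
  · intro h
    apply Finset.card_le_card
    intro u hu
    have hu' := (mem_D G s).1 hu
    refine Finset.mem_filter.2 ⟨Finset.mem_univ _, hu', ?_, ?_⟩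
    · intro he
      exact h ⟨u, hu', Or.inl he⟩
    · intro he
      exact h ⟨u, hu', Or.inr he⟩

/-- certificate for `c' = card (D (d + 1))` -/
def Cnt (d c c' : ℕ) : Prop :=
  c' ≤ (univ.filter (fun v => W G s (d + 1) v)).card ∧
    n - c' ≤ (univ.filter (fun v => Cert G s d c v)).card

theorem cnt_iff (d c' : ℕ) (hc' : c' ≤ n) :
    Cnt G s d (D G s d).card c' ↔ c' = (D G s (d + 1)).card := by
  have h1 : univ.filter (fun v => Cert G s d (D G s d).card v) = (D G s (d + 1))ᶜ := by
    ext v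
    rw [Finset.mem_filter, Finset.mem_compl, mem_D, cert_iff]
    simp
  unfold Cnt
  rw [h1, Finset.card_compl, Fintype.card_fin]
  have h2 := card_D_le G s (d + 1)
  change (c' ≤ (D G s (d + 1)).card ∧ n - c' ≤ n - (D G s (d + 1)).card) ↔ _
  omega

theorem fin_iff (t : Fin n) :
    (D G s n).card ≤ (univ.filter (fun u => u ≠ t ∧ W G s n u)).card ↔ ¬ Reachable G s t := by
  rw [← W_iff]
  have hsub : univ.filter (fun u => u ≠ t ∧ W G s n u) ⊆ D G s n := by
    intro u hu
    rw [mem_D]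
    exact (Finset.mem_filter.1 hu).2.2
  constructor
  · intro h ht
    have heq := Finset.eq_of_subset_of_card_le hsub h
    have hu' : t ∈ D G s n := (mem_D G s).2 ht
    rw [← heq] at hu'
    exact (Finset.mem_filter.1 hu').2.1 rfl
  · intro h
    apply Finset.card_le_card
    intro u hu
    have hu' := (mem_D G s).1 hu
    refine Finset.mem_filter.2 ⟨Finset.mem_univ _, ?_, hu'⟩
    intro he
    rw [he] at hu'
    exact h hu'

/-- edges of the last graph -/
def Edge (t : Fin n) (d : ℕ) (c c' : Fin (n + 1)) : Prop :=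
  (d < n ∧ Cnt G s d c c') ∨
    (d = n ∧ (c' : ℕ) = 0 ∧ (c : ℕ) ≤ (univ.filter (fun u => u ≠ t ∧ W G s n u)).card)

/-- what is reached in the last graph -/
def St (t : Fin n) (d : ℕ) (c : Fin (n + 1)) : Prop :=
  (d ≤ n ∧ (c : ℕ) = (D G s d).card) ∨ (d = n + 1 ∧ (c : ℕ) = 0 ∧ ¬ Reachable G s t)

theorem st_zero (t : Fin n) (hn : 1 < n + 1) (c : Fin (n + 1)) :
    St G s t 0 c ↔ c = ⟨1, hn⟩ := by
  unfold St
  rw [card_D_zero]
  constructor
  · rintro (h | h)
    · exact Fin.ext h.2
    · omega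
  · intro h
    left
    rw [h]
    exact ⟨Nat.zero_le _, rfl⟩

theorem st_succ (t : Fin n) (d : ℕ) (hd : d < n + 1) (c' : Fin (n + 1)) :
    St G s t (d + 1) c' ↔ ∃ c, St G s t d c ∧ Edge G s t d c c' := by
  have hcard : (D G s d).card < n + 1 := Nat.lt_succ_of_le (card_D_le G s d)
  constructor
  · rintro (⟨h1, h2⟩ | ⟨h1, h2, h3⟩)
    · refine ⟨⟨_, hcard⟩, Or.inl ⟨by omega, rfl⟩, Or.inl ⟨by omega, ?_⟩⟩
      exact (cnt_iff G s d c' (Nat.le_of_lt_succ c'.2)).2 h2
    · have hdn : d = n := by omega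
      subst hdn
      exact ⟨⟨_, hcard⟩, Or.inl ⟨le_rfl, rfl⟩, Or.inr ⟨rfl, h2, (fin_iff G s t).2 h3⟩⟩
  · rintro ⟨c, ⟨h1, h2⟩ | ⟨h1, h2, h3⟩, ⟨h4, h5⟩ | ⟨h4, h5, h6⟩⟩
    · rw [h2, cnt_iff G s d c' (Nat.le_of_lt_succ c'.2)] at h5
      exact Or.inl ⟨h4, h5⟩
    · subst h4
      rw [h2] at h6
      exact Or.inr ⟨rfl, h5, (fin_iff G s t).1 h6⟩
    · omega
    · omega

end comb

theorem card_filter_inst {α : Type} [Fintype α] (p : α → Prop) (i₁ i₂ : DecidablePred p) :
    (@Finset.filter α p i₁ univ).card = (@Finset.filter α p i₂ univ).card := by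
  congr!

section rel

variable {𝒳 : Set (Set E)} {B a n : ℕ}

theorem rel_W (hB : 2 ≤ B) (hn : n + 1 ≤ B) (G : Set E → Set (Fin n × Fin n))
    (hpos : ∀ e, Rel 𝒳 B a (fun X => e ∈ G X)) (s : Fin n) (d : ℕ) (hd : d ≤ n) (v : Fin n) :
    Rel 𝒳 B (a + 6) (fun X => W (G X) s d v) := by
  have hf : ∀ x y : Fin (n + 1) × Fin n, Rel 𝒳 B (a + 1)
      (fun X => (y.1 : ℕ) = x.1 + 1 ∧ (x.2 = y.2 ∨ (x.2, y.2) ∈ G X)) := by
    intro x y
    by_cases h : (y.1 : ℕ) = x.1 + 1
    · by_cases h' : x.2 = y.2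
      · exact (Rel.mono hB (by omega) (rel_true hB)).congr (fun X _ => by simp [h, h'])
      · exact (Rel.mono hB (by omega) (hpos (x.2, y.2))).congr (fun X _ => by simp [h, h'])
    · exact (Rel.mono hB (by omega) (rel_false hB)).congr (fun X _ => by simp [h])
  have hP : Fintype.card (Fin (n + 1) × Fin n) ≤ B ^ 2 := by
    rw [Fintype.card_prod, Fintype.card_fin, Fintype.card_fin, pow_two]
    exact Nat.mul_le_mul hn (by omega)
  have h := rel_comp hB hP hf ((0 : Fin (n + 1)), s) ((⟨d, by omega⟩ : Fin (n + 1)), v)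
  refine (Rel.mono hB (by omega) h).congr (fun X _ => ?_)
  exact layer (N := n) s (fun d v => W (G X) s d v) (fun _ u v => u = v ∨ (u, v) ∈ G X)
    (fun v => Iff.rfl) (fun d _ v => Iff.rfl) ((⟨d, by omega⟩ : Fin (n + 1)), v)

theorem rel_Cert (hB : 2 ≤ B) (hn : n + 1 ≤ B) (G : Set E → Set (Fin n × Fin n))
    (hpos : ∀ e, Rel 𝒳 B a (fun X => e ∈ G X)) (hneg : ∀ e, Rel 𝒳 B a (fun X => e ∉ G X))
    (s : Fin n) (d c : ℕ) (hd : d ≤ n) (hc : c ≤ n) (v : Fin n) :
    Rel 𝒳 B (a + 13) (fun X => Cert (G X) s d c v) := by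
  have hf : ∀ u : Fin n, Rel 𝒳 B (a + 7)
      (fun X => W (G X) s d u ∧ (u ≠ v ∧ (u, v) ∉ G X)) := by
    intro u
    refine rel_and hB (rel_W hB hn G hpos s d hd u) ?_
    by_cases h : u = v
    · exact (Rel.mono hB (by omega) (rel_false hB)).congr (fun X _ => by simp [h])
    · exact (Rel.mono hB (by omega) (hneg (u, v))).congr (fun X _ => by simp [h])
  refine Rel.congr (fun X _ => ?_) (rel_thr hB hn hf (c := c) (by omega))
  unfold Cert
  rw [card_filter_inst]

theorem rel_Cnt (hB : 2 ≤ B) (hn : n + 1 ≤ B) (G : Set E → Set (Fin n × Fin n))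
    (hpos : ∀ e, Rel 𝒳 B a (fun X => e ∈ G X)) (hneg : ∀ e, Rel 𝒳 B a (fun X => e ∉ G X))
    (s : Fin n) (d c c' : ℕ) (hd : d < n) (hc : c ≤ n) (hc' : c' ≤ n) :
    Rel 𝒳 B (a + 20) (fun X => Cnt (G X) s d c c') := by
  refine rel_and hB ?_ ?_
  · exact Rel.mono hB (by omega)
      (rel_thr hB hn (fun v => rel_W hB hn G hpos s (d + 1) hd v) (c := c') (by omega))
  · exact Rel.mono hB (by omega)
      (rel_thr hB hn (fun v => rel_Cert hB hn G hpos hneg s d c hd.le hc v) (c := n - c')
        (by omega))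

theorem rel_Edge (hB : 2 ≤ B) (hn : n + 1 ≤ B) (G : Set E → Set (Fin n × Fin n))
    (hpos : ∀ e, Rel 𝒳 B a (fun X => e ∈ G X)) (hneg : ∀ e, Rel 𝒳 B a (fun X => e ∉ G X))
    (s t : Fin n) (d : ℕ) (c c' : Fin (n + 1)) :
    Rel 𝒳 B (a + 20) (fun X => Edge (G X) s t d c c') := by
  rcases lt_trichotomy d n with h | h | h
  · refine (rel_Cnt hB hn G hpos hneg s d c c' h (Nat.le_of_lt_succ c.2)
      (Nat.le_of_lt_succ c'.2)).congr (fun X _ => ?_)
    unfold Edge
    constructor
    · intro h'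
      exact Or.inl ⟨h, h'⟩
    · rintro (h' | h')
      · exact h'.2
      · omega
  · by_cases h0 : (c' : ℕ) = 0
    · have hf : ∀ u : Fin n, Rel 𝒳 B (a + 6) (fun X => u ≠ t ∧ W (G X) s n u) := by
        intro u
        by_cases hu : u = t
        · exact (Rel.mono hB (by omega) (rel_false hB)).congr (fun X _ => by simp [hu])
        · exact (rel_W hB hn G hpos s n le_rfl u).congr (fun X _ => by simp [hu])
      refine (Rel.mono hB (by omega) (rel_thr hB hn hf (c := c)
        (by have := c.2; omega))).congr (fun X _ => ?_)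
      unfold Edge
      rw [card_filter_inst]
      constructor
      · intro h'
        exact Or.inr ⟨h, h0, h'⟩
      · rintro (h' | h')
        · omega
        · exact h'.2.2
    · refine (Rel.mono hB (by omega) (rel_false hB)).congr (fun X _ => ?_)
      unfold Edge
      constructor
      · intro h'
        exact h'.elim
      · rintro (h' | h')
        · omega
        · exact h0 h'.2.1
  · refine (Rel.mono hB (by omega) (rel_false hB)).congr (fun X _ => ?_)
    unfold Edge
    constructor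
    · intro h'
      exact h'.elim
    · rintro (h' | h') <;> omega

end rel

end ISAux

open ISAux

theorem rel_unreach {𝒳 : Set (Set E)} {B a n : ℕ} (hB : 2 ≤ B) (hn : n + 1 ≤ B)
    (G : Set E → Set (Fin n × Fin n)) (hpos : ∀ e, Rel 𝒳 B a (fun X => e ∈ G X))
    (hneg : ∀ e, Rel 𝒳 B a (fun X => e ∉ G X)) (s t : Fin n) :
    Rel 𝒳 B (a + 100) (fun X => ¬ Reachable (G X) s t) := by
  have hn1 : 1 < n + 1 := by
    have := s.2
    omega
  have hf : ∀ x y : Fin (n + 1 + 1) × Fin (n + 1), Rel 𝒳 B (a + 20)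
      (fun X => (y.1 : ℕ) = x.1 + 1 ∧ Edge (G X) s t x.1 x.2 y.2) := by
    intro x y
    by_cases h : (y.1 : ℕ) = x.1 + 1
    · exact (rel_Edge hB hn G hpos hneg s t x.1 x.2 y.2).congr (fun X _ => by simp [h])
    · exact (Rel.mono hB (by omega) (rel_false hB)).congr (fun X _ => by simp [h])
  have hP : Fintype.card (Fin (n + 1 + 1) × Fin (n + 1)) ≤ B ^ 3 := by
    rw [Fintype.card_prod, Fintype.card_fin, Fintype.card_fin, pow_succ]
    refine Nat.mul_le_mul ?_ hn
    nlinarith
  have h := rel_comp hB hP hf ((0 : Fin (n + 1 + 1)), (⟨1, hn1⟩ : Fin (n + 1)))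
    ((⟨n + 1, by omega⟩ : Fin (n + 1 + 1)), (⟨0, by omega⟩ : Fin (n + 1)))
  refine (Rel.mono hB (by omega) h).congr (fun X _ => ?_)
  refine (layer (N := n + 1) (⟨1, hn1⟩ : Fin (n + 1)) (fun d c => St (G X) s t d c)
    (fun d c c' => Edge (G X) s t d c c') (fun c => st_zero (G X) s t hn1 c)
    (fun d hd c' => st_succ (G X) s t d hd c')
    ((⟨n + 1, by omega⟩ : Fin (n + 1 + 1)), (⟨0, by omega⟩ : Fin (n + 1)))).trans ?_
  change St (G X) s t (n + 1) (⟨0, by omega⟩ : Fin (n + 1)) ↔ _
  unfold St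
  constructor
  · rintro (h' | h')
    · omega
    · exact h'.2.2
  · intro h'
    exact Or.inr ⟨rfl, rfl, h'⟩

end NotI
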