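import Pool.Agent.Lib.NotI.Search
import Pool.Agent.Lib.NotI.IS

/-!
# NotI.Up (MP_e46137_lc): the theorem of Immerman and Szelepcsényi with `N + 1` values of the
potential
-/

namespace NotI

open Finset Classical Pool.Agent.Lib.Pe46137 Pool.Agent.Lib.Pe46137X MonSize NotG

theorem adaptive_class {E : Type} {𝓜 𝓜' : (Set E → Prop) → Prop} (h : ∀ g, 𝓜 g → 𝓜' g)
    {ks : List ℕ} {f : Set E → Prop} (hf : Adaptive 𝓜 ks f) : Adaptive 𝓜' ks f := by
  induction hf with
  | answer hf => exact Adaptive.answer (h _ hf)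
  | ask g f hg hf ih => exact Adaptive.ask g f (fun i => h _ (hg i)) ih

theorem le_card_iff {α : Type} [Fintype α] (p : α → Prop) {i : DecidablePred p} :
    Fintype.card α ≤ (@Finset.filter α p i univ).card ↔ ∀ a, p a := by
  constructor
  · intro h a
    have h3 : @Finset.filter α p i univ = univ := by
      apply eq_univ_of_card
      exact le_antisymm (card_filter_le _ _) h
    have h4 : a ∈ @Finset.filter α p i univ := by
      rw [h3]
      exact mem_univ a
    exact (mem_filter.1 h4).2
  · intro h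
    rw [filter_true_of_mem (fun a _ => h a), card_univ]

/-- If the product of the numbers `k j + 1` exceeds the number of variables, then polynomial
nondeterministic networks decide unreachability. -/
theorem upper_all : ∃ A : ℕ, ∀ (n : ℕ) (s t : Fin n), s ≠ t → ∀ L : ℕ, 1 ≤ L → ∀ ks : List ℕ,
    L * n ^ 2 + 1 ≤ (ks.map (· + 1)).prod →
      Adaptive (ByCo ((L * n) ^ A)) ks
        (fun X : Set (Var L n) => ∀ i, ¬ Reachable (graph X i) s t) := by
  refine ⟨339, ?_⟩
  intro n s t hst L hL ks hks
  have hn : 2 ≤ n := by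
    by_contra hc
    have : n = 0 ∨ n = 1 := by omega
    rcases this with rfl | rfl
    · exact s.elim0
    · exact hst (Subsingleton.elim s t)
  obtain ⟨B, hB⟩ : ∃ B, B = L * n ^ 2 + 1 := ⟨_, rfl⟩
  have hn4 : 4 ≤ n ^ 2 := by nlinarith
  have hLn : L ≤ L * n ^ 2 := Nat.le_mul_of_pos_right L (by omega)
  have hnn : n ≤ L * n ^ 2 := by
    calc n = 1 * n := (one_mul n).symm
      _ ≤ L * n ^ 2 := Nat.mul_le_mul hL (by nlinarith)
  have hB2 : 2 ≤ B := by
    rw [hB]
    omega
  have hBn : n + 1 ≤ B := by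
    rw [hB]
    omega
  have hBL : L + 1 ≤ B := by
    rw [hB]
    omega
  have hcard : Fintype.card (Var L n) = L * n ^ 2 := by
    rw [Fintype.card_prod, Fintype.card_prod, Fintype.card_fin, Fintype.card_fin]
    ring
  have hE : Fintype.card (Var L n) + 1 ≤ B := by
    rw [hcard, hB]
  have key : ∀ a : ℕ, Rel {X : Set (Var L n) | (univ.filter (fun e => e ∉ X)).card = a} B 113
      (fun X => ∀ i, ¬ Reachable (graph X i) s t) := by
    intro a
    have h1 : ∀ i : Fin L, Rel {X : Set (Var L n) | (univ.filter (fun e => e ∉ X)).card = a} B 107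
        (fun X => ¬ Reachable (graph X i) s t) := by
      intro i
      refine rel_unreach (a := 7) hB2 hBn (fun X => graph X i) (fun e => ?_) (fun e => ?_) s t
      · exact rel_posLit hB2 hE a (i, e)
      · exact Rel.mono hB2 (by norm_num) (rel_lit hB2 ((i, e) : Var L n))
    have h2 := rel_thr hB2 hBL h1 (c := L) hBL
    refine h2.congr (fun X _ => ?_)
    have h3 := @le_card_iff (Fin L) _ (fun i => ¬ Reachable (graph X i) s t)
      (fun _ => Classical.propDecidable _)
    rw [Fintype.card_fin] at h3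
    exact h3
  choose F hF hFX using key
  obtain ⟨f, hf, hfX⟩ := search (m := B ^ 113) hB2 hE (Nat.pow_le_pow_right (by omega)
    (by norm_num)) F hF ks 0
  have hfeq : f = fun X : Set (Var L n) => ∀ i, ¬ Reachable (graph X i) s t := by
    funext X
    apply propext
    rw [hfX X (Nat.zero_le _) (by
      rw [zero_add]
      refine lt_of_le_of_lt (SearchAux.count_le X) ?_
      rw [hcard]
      omega)]
    exact (hFX _ X rfl).symm
  rw [← hfeq]
  refine adaptive_class (fun g hg => byCo_pad ?_ hg) hf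
  have h5 : B ≤ (L * n) ^ 3 := by
    have h6 : 1 ≤ L ^ 2 := Nat.one_le_pow _ _ hL
    have h7 : L * n ^ 2 + 1 ≤ L * n ^ 2 * n := by nlinarith
    calc B = L * n ^ 2 + 1 := hB
      _ ≤ L * n ^ 2 * n := h7
      _ = 1 * (L * n ^ 3) := by ring
      _ ≤ L ^ 2 * (L * n ^ 3) := Nat.mul_le_mul_right _ h6
      _ = (L * n) ^ 3 := by ring
  calc B ^ 113 ≤ ((L * n) ^ 3) ^ 113 := Nat.pow_le_pow_left h5 113
    _ = (L * n) ^ 339 := by rw [← pow_mul]

end NotI
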