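import Pool.Agent.Lib.NotI.Net
import Pool.Agent.Lib.NotG.FUp

/-!
# Module NotI.UpForm (MP_e46137_lc): upper bound without negations

* `form_co`: for a formula without NOT gates, by induction: it is constant, or its negation has a
  network with at most `2 * leaves` states (`byCo_lit`; `and` of formulas gives `byCo_or` of the
  negations, `or` gives `byCo_and`).
* `adaptive_any`: a function of the class is computed by an adaptive program with any list of numbers
  of questions (ask anything, for example `f` itself).
* `cert_upper`: `NotG.upper_formula` and `form_co`, `byCo_pad`. The negation of a constant function is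
  computed by a network with two states; the formula solves the problem, so it is not constant and has
  at least one leaf if `s ≠ t` (or treat the constant case with `byCo_true`, `byCo_false` and
  `1 ≤ formulaSize s t ℓ`; see `MTN/Final.lean`, `hpos`).
-/

namespace NotI

open NotG Pool.Agent.Lib.Pe46137 Pool.Agent.Lib.Pe46137X MonSize

variable {E : Type}

theorem form_co (F : NFormula E) (hF : F.nots = 0) : (∀ X, F.Eval X) ∨ (∀ X, ¬ F.Eval X) ∨
    ByCo (2 * F.leaves) (fun X => ¬ F.Eval X) := by
  induction F with
  | const b =>
    cases b with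
    | true => exact Or.inl fun X => rfl
    | false => exact Or.inr (Or.inl fun X h => absurd (show false = true from h) (by decide))
  | var e => exact Or.inr (Or.inr (byCo_lit (le_refl 2) e))
  | and F F' ih ih' =>
    have h0 : F.nots + F'.nots = 0 := hF
    rcases ih (by omega) with h | h | h
    · rcases ih' (by omega) with h' | h' | h'
      · exact Or.inl fun X => ⟨h X, h' X⟩
      · exact Or.inr (Or.inl fun X hX => h' X hX.2)
      · refine Or.inr (Or.inr ?_)
        have h1 : (fun X => ¬ (NFormula.and F F').Eval X) = fun X => ¬ F'.Eval X := by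
          funext X
          exact propext ⟨fun h2 h3 => h2 ⟨h X, h3⟩, fun h2 h3 => h2 h3.2⟩
        rw [h1]
        refine byCo_pad ?_ h'
        show 2 * F'.leaves ≤ 2 * (F.leaves + F'.leaves)
        omega
    · exact Or.inr (Or.inl fun X hX => h X hX.1)
    · rcases ih' (by omega) with h' | h' | h'
      · refine Or.inr (Or.inr ?_)
        have h1 : (fun X => ¬ (NFormula.and F F').Eval X) = fun X => ¬ F.Eval X := by
          funext X
          exact propext ⟨fun h2 h3 => h2 ⟨h3, h' X⟩, fun h2 h3 => h2 h3.1⟩
        rw [h1]
        refine byCo_pad ?_ h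
        show 2 * F.leaves ≤ 2 * (F.leaves + F'.leaves)
        omega
      · exact Or.inr (Or.inl fun X hX => h' X hX.2)
      · refine Or.inr (Or.inr ?_)
        have h1 : (fun X => ¬ (NFormula.and F F').Eval X) =
            fun X => ¬ F.Eval X ∨ ¬ F'.Eval X := by
          funext X
          exact propext (not_and_or (a := F.Eval X) (b := F'.Eval X))
        rw [h1]
        refine byCo_pad ?_ (byCo_or h h')
        show 2 * F.leaves + 2 * F'.leaves ≤ 2 * (F.leaves + F'.leaves)
        omega
  | or F F' ih ih' =>
    have h0 : F.nots + F'.nots = 0 := hF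
    rcases ih (by omega) with h | h | h
    · exact Or.inl fun X => Or.inl (h X)
    · rcases ih' (by omega) with h' | h' | h'
      · exact Or.inl fun X => Or.inr (h' X)
      · exact Or.inr (Or.inl fun X hX => hX.elim (h X) (h' X))
      · refine Or.inr (Or.inr ?_)
        have h1 : (fun X => ¬ (NFormula.or F F').Eval X) = fun X => ¬ F'.Eval X := by
          funext X
          exact propext ⟨fun h2 h3 => h2 (Or.inr h3), fun h2 h3 => h3.elim (h X) h2⟩
        rw [h1]
        refine byCo_pad ?_ h'
        show 2 * F'.leaves ≤ 2 * (F.leaves + F'.leaves)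
        omega
    · rcases ih' (by omega) with h' | h' | h'
      · exact Or.inl fun X => Or.inr (h' X)
      · refine Or.inr (Or.inr ?_)
        have h1 : (fun X => ¬ (NFormula.or F F').Eval X) = fun X => ¬ F.Eval X := by
          funext X
          exact propext ⟨fun h2 h3 => h2 (Or.inl h3), fun h2 h3 => h3.elim h2 (h' X)⟩
        rw [h1]
        refine byCo_pad ?_ h
        show 2 * F.leaves ≤ 2 * (F.leaves + F'.leaves)
        omega
      · refine Or.inr (Or.inr ?_)
        have h1 : (fun X => ¬ (NFormula.or F F').Eval X) =
            fun X => ¬ F.Eval X ∧ ¬ F'.Eval X := by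
          funext X
          exact propext (not_or (p := F.Eval X) (q := F'.Eval X))
        rw [h1]
        refine byCo_pad ?_ (byCo_and h h')
        show 2 * F.leaves + 2 * F'.leaves ≤ 2 * (F.leaves + F'.leaves)
        omega
  | not F _ =>
    have h0 : F.nots + 1 = 0 := hF
    omega

theorem adaptive_any {𝓜 : (Set E → Prop) → Prop} {f : Set E → Prop} (hf : 𝓜 f) (ks : List ℕ) :
    Adaptive 𝓜 ks f := by
  induction ks with
  | nil => exact Adaptive.answer hf
  | cons k ks ih => exact Adaptive.ask (fun _ => f) (fun _ => f) (fun _ => hf) (fun _ => ih)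

theorem cert_upper {L n : ℕ} (hL : 1 ≤ L) {s t : Fin n} (hst : s ≠ t) {ℓ : ℕ} (hℓ : 1 ≤ ℓ)
    (hℓn : ℓ ≤ n) : ∃ f : Set (Var L n) → Prop, ByCo (2 * (L * formulaSize s t ℓ)) f ∧
      CertifiesOn (fun _ => True) f s t ℓ := by
  obtain ⟨F, h1, h2, h3⟩ := upper_formula (L := L) hst hℓ hℓn
  refine ⟨fun X => ¬ F.Eval X, ?_, fun X hX => ⟨(h2 X hX).2, fun h4 h5 => h5 ((h2 X hX).1 h4)⟩⟩
  rcases form_co F h1 with h | h | h
  · exfalso
    refine (h2 ∅ fun _ => trivial).2 (fun i => ?_) (h ∅)
    have h4 : graph (∅ : Set (Var L n)) i = ∅ := by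
      ext e
      simp [graph]
    rw [h4]
    exact not_reachable_empty hst
  · exfalso
    refine h Set.univ ((h2 Set.univ fun _ => trivial).1 ⟨⟨0, hL⟩, ?_⟩)
    exact JoinedIn.single (Set.mem_univ _) hℓ
  · rwa [h3] at h

end NotI
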