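import Pool.Agent.Lib.NotI.Low
import Pool.Agent.Lib.NotI.Up
import Pool.Agent.Lib.NotI.UpForm
import Pool.Agent.Lib.NotI.Thr
import Pool.Agent.Lib.NotI.Adv

/-!
# NotI.Final (MP_e46137_lc): the negations of the theorem of Immerman and Szelepcsényi
-/

namespace NotI

open Finset Classical Pool.Agent.Lib.Pe46137 Pool.Agent.Lib.Pe46137X MonSize NotG

namespace FinalAux

theorem certifies_mono {L n : ℕ} {𝒢 𝒢' : Set (Fin n × Fin n) → Prop} (h : ∀ G, 𝒢' G → 𝒢 G)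
    {f : Set (Var L n) → Prop} {s t : Fin n} {ℓ : ℕ} (hf : CertifiesOn 𝒢 f s t ℓ) :
    CertifiesOn 𝒢' f s t ℓ := fun X hX => hf X fun i => h _ (hX i)

end FinalAux

open FinalAux

theorem final {c : ℝ} (hc : 0 < c) (hadv : AdvProp c) : ∃ (C : ℝ) (A : ℕ), 0 < C ∧
    ∀ (n : ℕ) (s t : Fin n), s ≠ t → ∀ L : ℕ, 1 ≤ L → ∀ (ks : List ℕ) (W : ℕ),
    W = (ks.map (· + 1)).prod →
    (L * n ^ 2 + 1 ≤ W → Adaptive (ByCo ((L * n) ^ A)) ks
      (fun X : Set (Var L n) => ∀ i, ¬ Reachable (graph X i) s t)) ∧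
    ∀ ℓ : ℕ, 1 ≤ ℓ → ℓ ≤ n → ∀ 𝒢 : Set (Fin n × Fin n) → Prop, (∀ G, Undirected G → 𝒢 G) →
      (W ≤ L → |Real.logb 2 (certSize L 𝒢 ks s t ℓ) - mainTerm n ℓ| ≤
        C * (errTerm n ℓ + Real.logb 2 L)) ∧
      (C * Real.logb 2 n ^ 11 * ℓ ≤ n → ∀ (m : ℕ) (f : Set (Var L n) → Prop),
        Adaptive (ByCo m) ks f → advL (fun X => ¬ f X) ℓ s t (pathEdges s t) cutEdges ≤
          ((W : ℝ) - 1) / L + W * m * (2 : ℝ) ^ (-(mainTerm n ℓ - C * errTerm n ℓ))) ∧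
      (∀ n' ℓ' K : ℕ, 1 ≤ ℓ' → ℓ' ≤ ℓ → ℓ' ≤ n' → 1 ≤ K → K * n' ≤ n → W ≤ L * K →
        mainTerm n' ℓ' - C * (errTerm n' ℓ' + Real.logb 2 (L * K)) ≤
          Real.logb 2 (certSize L 𝒢 ks s t ℓ)) := by
  obtain ⟨C₁, hC₁, hlower⟩ := lower hc hadv
  obtain ⟨C₂, hC₂, havg⟩ := avg hc hadv
  obtain ⟨C₃, hC₃, hmain⟩ := MTN.final
  obtain ⟨A, hup⟩ := upper_all
  refine ⟨C₁ + C₂ + C₃ + 2, A, by linarith, ?_⟩
  intro n s t hst L hL ks W hW
  refine ⟨fun hN => hup n s t hst L hL ks (by rwa [← hW]), ?_⟩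
  intro ℓ hℓ hℓn 𝒢 h𝒢
  have hn : 2 ≤ n := by
    by_contra hc
    have : n = 0 ∨ n = 1 := by omega
    rcases this with rfl | rfl
    · exact s.elim0
    · exact hst (Subsingleton.elim s t)
  obtain ⟨l1, -, -⟩ := MTN.UFormAux.log_facts hn
  obtain ⟨-, -, -, hE1, -, -, -⟩ := MTN.UFormAux.small hn hℓ hℓn
  have hE0 : 0 ≤ errTerm n ℓ := by linarith
  have hL1 : (1 : ℝ) ≤ L := by exact_mod_cast hL
  have hL0 : (0 : ℝ) < L := by linarith
  have hlogL : 0 ≤ Real.logb 2 (L : ℝ) := Real.logb_nonneg (by norm_num) hL1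
  obtain ⟨⟨a1, a2, -, -, a5⟩, -, -⟩ := hmain n s t hst ℓ hℓ hℓn
  obtain ⟨f₀, hf₀, hf₀s⟩ := cert_upper (L := L) hL hst hℓ hℓn
  have hf₀c : CertifiesOn 𝒢 f₀ s t ℓ := certifies_mono (fun _ _ => trivial) hf₀s
  have hf₀a : Adaptive (ByCo (2 * (L * formulaSize s t ℓ))) ks f₀ := adaptive_any hf₀ ks
  have hmem : ∃ f : Set (Var L n) → Prop, Adaptive (ByCo (certSize L 𝒢 ks s t ℓ)) ks f ∧
      CertifiesOn 𝒢 f s t ℓ :=
    Nat.sInf_mem (s := {m | ∃ f : Set (Var L n) → Prop, Adaptive (ByCo m) ks f ∧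
      CertifiesOn 𝒢 f s t ℓ}) ⟨_, f₀, hf₀a, hf₀c⟩
  obtain ⟨f₁, hf₁, hf₁c⟩ := hmem
  have hlow : ∀ n' ℓ' K : ℕ, 1 ≤ ℓ' → ℓ' ≤ ℓ → ℓ' ≤ n' → 1 ≤ K → K * n' ≤ n → W ≤ L * K →
      mainTerm n' ℓ' - C₁ * (errTerm n' ℓ' + Real.logb 2 (L * K)) ≤
        Real.logb 2 (certSize L 𝒢 ks s t ℓ) := by
    intro n' ℓ' K hℓ' hℓℓ' hℓn' hK hKn hWL
    exact hlower n n' L K _ s t hst hL hK hKn ℓ ℓ' hℓ' hℓℓ' hℓn' 𝒢 h𝒢 ks f₁ (by rwa [← hW]) hf₁
      hf₁c
  have herr : ∀ n' ℓ' K : ℕ, 1 ≤ ℓ' → ℓ' ≤ n' → 1 ≤ K →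
      mainTerm n' ℓ' - (C₁ + C₂ + C₃ + 2) * (errTerm n' ℓ' + Real.logb 2 (L * K)) ≤
        mainTerm n' ℓ' - C₁ * (errTerm n' ℓ' + Real.logb 2 (L * K)) := by
    intro n' ℓ' K hℓ' hℓn' hK
    have h1 : 0 ≤ errTerm n' ℓ' := by
      rcases (by omega : n' = 1 ∨ 2 ≤ n') with h | h
      · have h2 : ℓ' = 1 := by omega
        rw [h, h2]
        unfold errTerm
        simp
      · obtain ⟨-, -, -, h3, -, -, -⟩ := MTN.UFormAux.small h hℓ' hℓn'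
        linarith
    have h2 : 0 ≤ Real.logb 2 ((L : ℝ) * K) := by
      apply Real.logb_nonneg (by norm_num)
      have h3 : (1 : ℝ) ≤ K := by exact_mod_cast hK
      nlinarith
    nlinarith
  refine ⟨fun hWL => ?_, fun hcond m f hf => ?_, fun n' ℓ' K hℓ' hℓℓ' hℓn' hK hKn hWL => ?_⟩
  · rw [abs_le]
    constructor
    · have h1 := hlow n ℓ 1 hℓ le_rfl hℓn le_rfl (by omega) (by omega)
      rw [Nat.cast_one, mul_one] at h1
      nlinarith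
    · have hle : certSize L 𝒢 ks s t ℓ ≤ 2 * (L * formulaSize s t ℓ) :=
        Nat.sInf_le ⟨f₀, hf₀a, hf₀c⟩
      have hfs : Real.logb 2 (formulaSize s t ℓ : ℝ) ≤ mainTerm n ℓ + C₃ * errTerm n ℓ := by
        have := (abs_le.1 a1).2
        linarith
      have h0 : 0 ≤ mainTerm n ℓ := by
        unfold mainTerm
        have h6 : 0 ≤ Real.logb 2 (ℓ : ℝ) :=
          Real.logb_nonneg (by norm_num) (by exact_mod_cast hℓ)
        have h7 : Real.logb 2 (ℓ : ℝ) ≤ Real.logb 2 (n : ℝ) :=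
          Real.logb_le_logb_of_le (by norm_num) (by exact_mod_cast hℓ)
            (by exact_mod_cast hℓn)
        nlinarith
      rcases Nat.eq_zero_or_pos (certSize L 𝒢 ks s t ℓ) with h | h
      · rw [h, Nat.cast_zero, Real.logb_zero]
        have h6 : 0 ≤ (C₁ + C₂ + C₃ + 2) * (errTerm n ℓ + Real.logb 2 L) :=
          mul_nonneg (by linarith) (by linarith)
        linarith
      · have h5 : 0 < formulaSize s t ℓ := by
          rcases Nat.eq_zero_or_pos (formulaSize s t ℓ) with h6 | h6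
          · rw [h6] at hle
            omega
          · exact h6
        have h5' : (0 : ℝ) < formulaSize s t ℓ := by exact_mod_cast h5
        have h6 : Real.logb 2 (certSize L 𝒢 ks s t ℓ : ℝ) ≤
            Real.logb 2 (2 * ((L : ℝ) * formulaSize s t ℓ)) :=
          Real.logb_le_logb_of_le (by norm_num) (by exact_mod_cast h) (by exact_mod_cast hle)
        rw [Real.logb_mul (by norm_num) (mul_pos hL0 h5').ne', Real.logb_mul hL0.ne' h5'.ne',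
          Real.logb_self_eq_one (by norm_num)] at h6
        nlinarith
  · have hlog11 : (1 : ℝ) ≤ Real.logb 2 n ^ 11 := one_le_pow₀ l1
    have hcond2 : C₂ * Real.logb 2 n ^ 11 * ℓ ≤ n := by
      refine le_trans ?_ hcond
      apply mul_le_mul_of_nonneg_right _ (Nat.cast_nonneg _)
      apply mul_le_mul_of_nonneg_right _ (by linarith)
      linarith
    have h1 := rounds_loc (coM_mono m) (adaptive_not hf)
    rw [← hW] at h1
    refine (havg n s t hst ℓ hℓ hℓn hcond2 L W m hL _ h1).trans ?_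
    have h2 : (2 : ℝ) ^ (-(mainTerm n ℓ - C₂ * errTerm n ℓ)) ≤
        (2 : ℝ) ^ (-(mainTerm n ℓ - (C₁ + C₂ + C₃ + 2) * errTerm n ℓ)) := by
      apply Real.rpow_le_rpow_of_exponent_le (by norm_num)
      nlinarith
    have h3 : 0 ≤ (W : ℝ) * m := mul_nonneg (Nat.cast_nonneg _) (Nat.cast_nonneg _)
    have := mul_le_mul_of_nonneg_left h2 h3
    linarith
  · exact (herr n' ℓ' K hℓ' hℓn' hK).trans (hlow n' ℓ' K hℓ' hℓℓ' hℓn' hK hKn hWL)

/-- the threshold for polynomially many digraphs -/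
theorem threshold {c : ℝ} (hc : 0 < c) (hadv : AdvProp c) (a B : ℕ) (ε : ℝ) (hε : 0 < ε) :
    ∃ n₀ : ℕ, ∀ n : ℕ, n₀ ≤ n → ∀ s t : Fin n, s ≠ t → ∀ ks : List ℕ,
      (((ks.map (· + 1)).prod : ℕ) : ℝ) ≤ (n : ℝ) ^ ((a : ℝ) + 1 - ε) →
      ∀ f : Set (Var (n ^ a) n) → Prop, Adaptive (ByCo (n ^ B)) ks f →
        ¬ CertifiesOn Undirected f s t n := by
  obtain ⟨C, hC, hlower⟩ := lower hc hadv
  obtain ⟨n₀, hn₀⟩ := thr C hC a B (min ε (1 / 2)) (lt_min hε (by norm_num))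
    (lt_of_le_of_lt (min_le_right _ _) (by norm_num))
  refine ⟨n₀, ?_⟩
  intro n hn s t hst ks hks f hf hcert
  obtain ⟨n', K, h1, h2, h3, h4, h5, h6⟩ := hn₀ n hn
  have hn1 : 1 ≤ n := by
    have := s.2
    omega
  have hn1' : (1 : ℝ) ≤ n := by exact_mod_cast hn1
  have hn0 : (0 : ℝ) < n := by linarith
  have hW : (ks.map (· + 1)).prod ≤ n ^ a * K := by
    have h7 : (((ks.map (· + 1)).prod : ℕ) : ℝ) ≤ ((n ^ a * K : ℕ) : ℝ) := by
      rw [Nat.cast_mul, Nat.cast_pow]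
      calc (((ks.map (· + 1)).prod : ℕ) : ℝ) ≤ (n : ℝ) ^ ((a : ℝ) + 1 - ε) := hks
        _ ≤ (n : ℝ) ^ ((a : ℝ) + (1 - min ε (1 / 2))) := by
          apply Real.rpow_le_rpow_of_exponent_le hn1'
          have := min_le_left ε (1 / 2)
          linarith
        _ = (n : ℝ) ^ a * (n : ℝ) ^ (1 - min ε (1 / 2)) := by
          rw [Real.rpow_add hn0, Real.rpow_natCast]
        _ ≤ (n : ℝ) ^ a * K := mul_le_mul_of_nonneg_left h5 (by positivity)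
    exact_mod_cast h7
  have h8 := hlower n n' (n ^ a) K (n ^ B) s t hst (Nat.one_le_pow _ _ hn1) h3 h4 n n' h1 h2 le_rfl
    Undirected (fun _ h => h) ks f hW hf hcert
  rw [Nat.cast_pow n B, Real.logb_pow] at h8
  linarith

end NotI
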