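import Pool.Agent.Lib.NotI.Avg
import Pool.Agent.Lib.NotG.Final

/-!
# NotI.Low (MP_e46137_lc): lower bounds for programs of nondeterministic networks
-/

namespace NotI

open Finset Classical Pool.Agent.Lib.Pe46137 Pool.Agent.Lib.Pe46137X MonSize NotG

/-- the negations of the functions of nondeterministic networks with `m` states -/
def CoM {E : Type} (m : ℕ) (g : Set E → Prop) : Prop := ByCo m (fun X => ¬ g X)

theorem coM_mono {E : Type} (m : ℕ) :
    ∀ g : Set E → Prop, CoM m g → ∀ X Y, X ⊆ Y → g X → g Y := by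
  intro g hg X Y hXY hX
  by_contra hY
  exact byCo_anti hg hXY hY hX

theorem adaptive_not {E : Type} {m : ℕ} {ks : List ℕ} {f : Set E → Prop}
    (hf : Adaptive (ByCo m) ks f) : Adaptive (CoM m) ks (fun X => ¬ f X) := by
  induction hf with
  | @answer f hf =>
    refine Adaptive.answer ?_
    show ByCo m (fun X => ¬ ¬ f X)
    simpa only [not_not] using hf
  | @ask k ks g f hg hfa ih =>
    have h := Adaptive.ask (𝓜 := CoM m) (ks := ks) (fun i X => ¬ g i X)
      (fun a X => ¬ f (fun i => ¬ a i) X) (fun i => by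
        show ByCo m (fun X => ¬ ¬ g i X)
        simpa only [not_not] using hg i) (fun a => ih _)
    simpa only [not_not] using h

theorem coM_pull {E E' : Type} {m : ℕ} {f : Set E → Prop} (hf : CoM m f) (σ : E → Bool ⊕ E') :
    CoM m (fun Y => f (pull σ Y)) := byCo_pull hf σ

theorem coM_or {E : Type} {m W : ℕ} {f : Set E → Prop} (hf : OrOf (CoM m) W f) :
    CoM (W * m) f := by
  obtain ⟨l, h1, h2, h3, h4⟩ := hf
  have h5 := byCo_andList (m := m) (W := W) (l := l.map (fun g X => ¬ g X)) (by simpa using h1)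
    (by simpa using h2) (by
      intro g hg
      rw [List.mem_map] at hg
      obtain ⟨g', hg', rfl⟩ := hg
      exact h3 g' hg')
  have h6 : (fun X => ¬ f X) = fun X => ∀ g ∈ l.map (fun g X => ¬ g X), g X := by
    funext X
    apply propext
    rw [h4 X]
    simp
  show ByCo (W * m) (fun X => ¬ f X)
  rw [h6]
  exact h5

theorem coM_level {L n m : ℕ} {f : Set (Var L n) → Prop} (hf : CoM m f) (i : Fin L)
    (G : Fin L → Set (Fin n × Fin n)) : ByCo m (fun H => ¬ f (level i G H)) := by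
  let σ : Var L n → Bool ⊕ (Fin n × Fin n) := fun x =>
    if x.1 < i then Sum.inl (decide (x.2 ∈ G x.1)) else if x.1 = i then Sum.inr x.2 else
      Sum.inl false
  have h := byCo_pull hf σ
  have key : ∀ H, pull σ H = level i G H := by
    intro H
    ext x
    simp only [pull, level, Set.mem_ofPred_eq, σ]
    by_cases h1 : x.1 < i
    · simp [h1, ne_of_lt h1]
    · by_cases h2 : x.1 = i
      · simp [h2]
      · simp [h1, h2]
  simpa only [key] using h

theorem frac_not {α : Type} {S : Finset α} (hS : S.Nonempty) (p : α → Prop)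
    {i₁ : DecidablePred fun x => ¬ p x} {i₂ : DecidablePred p} :
    ((@Finset.filter α (fun x => ¬ p x) i₁ S).card : ℝ) / S.card =
      1 - ((@Finset.filter α p i₂ S).card : ℝ) / S.card := by
  have h0 : (0 : ℝ) < S.card := by exact_mod_cast card_pos.2 hS
  have h1 : ((@Finset.filter α p i₂ S).card : ℝ) +
      ((@Finset.filter α (fun x => ¬ p x) i₁ S).card : ℝ) = S.card := by
    exact_mod_cast card_filter_add_card_filter_not (s := S) p
  field_simp
  linarith

/-- **Average case.** -/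
theorem avg {c : ℝ} (hc : 0 < c) (hadv : AdvProp c) : ∃ C : ℝ, 2 ≤ C ∧
    ∀ (n : ℕ) (s t : Fin n), s ≠ t → ∀ ℓ : ℕ, 1 ≤ ℓ → ℓ ≤ n →
    C * Real.logb 2 n ^ 11 * ℓ ≤ n → ∀ L W m : ℕ, 1 ≤ L → ∀ F : Set (Var L n) → Prop,
      Loc (CoM m) W F → advL F ℓ s t (pathEdges s t) cutEdges ≤
        ((W : ℝ) - 1) / L + W * m * (2 : ℝ) ^ (-(mainTerm n ℓ - C * errTerm n ℓ)) := by
  obtain ⟨C, hC, h⟩ := co_average hc hadv
  refine ⟨C, hC, ?_⟩
  intro n s t hst ℓ hℓ hℓn hcond L W m hL F hF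
  have hn : 2 ≤ n := by
    by_contra hc
    have : n = 0 ∨ n = 1 := by omega
    rcases this with rfl | rfl
    · exact s.elim0
    · exact hst (Subsingleton.elim s t)
  obtain ⟨l1, -, -⟩ := MTN.UFormAux.log_facts hn
  have hlog11 : (1 : ℝ) ≤ Real.logb 2 n ^ 11 := one_le_pow₀ l1
  have hcond2 : ℓ + 1 ≤ n := by
    have h1 : (2 : ℝ) * ℓ ≤ n := by
      refine le_trans ?_ hcond
      apply mul_le_mul_of_nonneg_right _ (Nat.cast_nonneg _)
      nlinarith
    have h2 : 2 * ℓ ≤ n := by exact_mod_cast h1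
    omega
  have hA := LowAux.seqs_nonempty (r := ℓ - 1) hst (by omega)
  have hB := LowAux.cuts_nonempty hst
  have hL0 : (0 : ℝ) < L := by exact_mod_cast hL
  have h4 := core hA hB (pathEdges s t) cutEdges hF
    (δ := W * m * (2 : ℝ) ^ (-(mainTerm n ℓ - C * errTerm n ℓ))) (by
      intro f hf i G
      have h5 := h n ℓ (W * m) s t hst hℓ hℓn hcond _ (coM_level (coM_or hf) i G)
      unfold coAdv at h5
      beta_reduce at h5
      rw [frac_not hB (fun C => f (level i G (cutEdges C))),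
        frac_not hA (fun P => f (level i G (pathEdges s t P)))] at h5
      push_cast at h5
      linarith)
  unfold advL
  rw [div_le_iff₀ hL0]
  refine h4.trans (le_of_eq ?_)
  field_simp
  ring

/-- **Worst case.** -/
theorem low {c : ℝ} (hc : 0 < c) (hadv : AdvProp c) : ∃ C : ℝ, 0 < C ∧
    ∀ (n : ℕ) (s t : Fin n), s ≠ t → ∀ ℓ : ℕ, 1 ≤ ℓ → ℓ ≤ n →
    ∀ L W m : ℕ, 1 ≤ L → W ≤ L → ∀ F : Set (Var L n) → Prop,
      Loc (CoM m) W F → SolvesIn Undirected F s t ℓ →
      mainTerm n ℓ - C * (errTerm n ℓ + Real.logb 2 L) ≤ Real.logb 2 m := by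
  obtain ⟨C₀, hC₀, havg⟩ := avg hc hadv
  obtain ⟨C', hC', hred⟩ := num_red11 C₀ (by linarith)
  refine ⟨C₀ + C' + 2, by linarith, ?_⟩
  intro n s t hst ℓ hℓ hℓn L W m hL hWL F hloc hsol
  have hn : 2 ≤ n := by
    by_contra hc
    have : n = 0 ∨ n = 1 := by omega
    rcases this with rfl | rfl
    · exact s.elim0
    · exact hst (Subsingleton.elim s t)
  obtain ⟨l1, -, -⟩ := MTN.UFormAux.log_facts hn
  obtain ⟨-, -, -, hE1, -, -, -⟩ := MTN.UFormAux.small hn hℓ hℓn
  have hL1 : (1 : ℝ) ≤ L := by exact_mod_cast hL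
  have hL0 : (0 : ℝ) < L := by linarith
  have hlogL : 0 ≤ Real.logb 2 (L : ℝ) := Real.logb_nonneg (by norm_num) hL1
  have hm0 : 0 ≤ Real.logb 2 (m : ℝ) := by
    rcases Nat.eq_zero_or_pos m with h | h
    · rw [h]
      simp
    · exact Real.logb_nonneg (by norm_num) (by exact_mod_cast h)
  rcases hred n ℓ hn hℓ hℓn with h1 | ⟨ℓ', h2, h3, hcond, h5, h6⟩
  · have h7 : 0 ≤ (C₀ + 2) * errTerm n ℓ := mul_nonneg (by linarith) (by linarith)
    have h8 : 0 ≤ (C₀ + C' + 2) * Real.logb 2 (L : ℝ) := mul_nonneg (by linarith) hlogL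
    nlinarith
  · obtain ⟨-, -, -, hE1', -, -, -⟩ := MTN.UFormAux.small hn (by omega : 1 ≤ ℓ')
      (h3.trans hℓn)
    have hf := havg n s t hst ℓ' (by omega) (h3.trans hℓn) hcond L W m hL F hloc
    have hcond2 : ℓ' + 1 ≤ n := by
      have hlog11 : (1 : ℝ) ≤ Real.logb 2 n ^ 11 := one_le_pow₀ l1
      have h1 : (2 : ℝ) * ℓ' ≤ n := by
        refine le_trans ?_ hcond
        apply mul_le_mul_of_nonneg_right _ (Nat.cast_nonneg _)
        nlinarith
      have h2 : 2 * ℓ' ≤ n := by exact_mod_cast h1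
      omega
    have hA := LowAux.seqs_nonempty (r := ℓ' - 1) hst (by omega)
    have hB := LowAux.cuts_nonempty hst
    have hone : (1 : ℝ) ≤ ((W : ℝ) - 1) / L +
        W * m * (2 : ℝ) ^ (-(mainTerm n ℓ' - C₀ * errTerm n ℓ')) := by
      refine le_trans (le_of_eq ?_) hf
      symm
      apply LowAux.advL_eq_one hL hA hB
      · intro i C hC P hP
        refine (hsol _ ?_).1 ⟨i, ?_⟩
        · exact LowAux.graph_level (fun j _ => LowAux.undirected_cutEdges _)
            (LowAux.undirected_pathEdges s t P) LowAux.undirected_empty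
        · rw [LowAux.graph_self]
          exact LowAux.within_inner_path' h2 h3 hP
      · intro i C hC
        refine (hsol _ ?_).2 ?_
        · exact LowAux.graph_level (fun j _ => LowAux.undirected_cutEdges _)
            (LowAux.undirected_cutEdges _) LowAux.undirected_empty
        · refine LowAux.graph_level (p := fun G => ¬ Reachable G s t) (fun j _ => ?_) ?_ ?_
          · exact LowAux.not_reach_cutEdges (LowAux.mem_cuts (hC j)).1 (LowAux.mem_cuts (hC j)).2
          · exact LowAux.not_reach_cutEdges (LowAux.mem_cuts (hC i)).1 (LowAux.mem_cuts (hC i)).2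
          · exact LowAux.not_reach_empty hst
    obtain ⟨x, hx⟩ : ∃ x, x = mainTerm n ℓ' - C₀ * errTerm n ℓ' := ⟨_, rfl⟩
    rw [← hx] at hone
    have hpow : (0 : ℝ) < (2 : ℝ) ^ (-x) := by positivity
    have hWL' : (W : ℝ) ≤ L := by exact_mod_cast hWL
    -- `1 ≤ L * L * m * 2 ^ (-x)`
    have hbig : (1 : ℝ) ≤ L * L * m * (2 : ℝ) ^ (-x) := by
      have h7 : ((W : ℝ) - 1) / L ≤ 1 - 1 / L := by
        rw [div_le_iff₀ hL0]
        field_simp
        linarith
      have h8 : 1 / (L : ℝ) ≤ W * m * (2 : ℝ) ^ (-x) := by linarith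
      rw [div_le_iff₀ hL0] at h8
      have h9 : (W : ℝ) * m * (2 : ℝ) ^ (-x) * L ≤ L * m * (2 : ℝ) ^ (-x) * L := by
        apply mul_le_mul_of_nonneg_right _ hL0.le
        apply mul_le_mul_of_nonneg_right _ hpow.le
        exact mul_le_mul_of_nonneg_right hWL' (Nat.cast_nonneg _)
      linarith
    have hmpos : 0 < m := by
      rcases Nat.eq_zero_or_pos m with h | h
      · exfalso
        rw [h] at hbig
        simp at hbig
        linarith
      · exact h
    have hmpos' : (0 : ℝ) < m := by exact_mod_cast hmpos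
    have hlog : x ≤ Real.logb 2 (L * L * m) := by
      rw [Real.le_logb_iff_rpow_le (by norm_num) (by positivity)]
      rw [Real.rpow_neg (by norm_num), ← div_eq_mul_inv, le_div_iff₀ (by positivity)] at hbig
      linarith
    rw [Real.logb_mul (by positivity) hmpos'.ne', Real.logb_mul hL0.ne' hL0.ne'] at hlog
    have h10 : C₀ * errTerm n ℓ' ≤ C₀ * errTerm n ℓ :=
      mul_le_mul_of_nonneg_left h6 (by linarith)
    have h11 : 0 ≤ (C₀ + C') * Real.logb 2 (L : ℝ) := mul_nonneg (by linarith) hlogL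
    nlinarith

/-- a program that certifies unreachability solves the reachability problem after negation -/
theorem solves_not {L n : ℕ} {𝒢 : Set (Fin n × Fin n) → Prop} {f : Set (Var L n) → Prop}
    {s t : Fin n} {ℓ : ℕ} (hf : CertifiesOn 𝒢 f s t ℓ) : SolvesOn 𝒢 (fun X => ¬ f X) s t ℓ := by
  intro X hX
  obtain ⟨h1, h2⟩ := hf X hX
  exact ⟨h2, fun h => not_not.2 (h1 h)⟩

/-- lower bounds for programs -/
theorem lower {c : ℝ} (hc : 0 < c) (hadv : AdvProp c) : ∃ C : ℝ, 0 < C ∧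
    ∀ (n n' L K m : ℕ) (s t : Fin n), s ≠ t → 1 ≤ L →
    1 ≤ K → K * n' ≤ n → ∀ ℓ ℓ' : ℕ, 1 ≤ ℓ' → ℓ' ≤ ℓ → ℓ' ≤ n' →
    ∀ 𝒢 : Set (Fin n × Fin n) → Prop, (∀ G, Undirected G → 𝒢 G) →
      ∀ (ks : List ℕ) (f : Set (Var L n) → Prop), (ks.map (· + 1)).prod ≤ L * K →
        Adaptive (ByCo m) ks f → CertifiesOn 𝒢 f s t ℓ →
        mainTerm n' ℓ' - C * (errTerm n' ℓ' + Real.logb 2 (L * K)) ≤ Real.logb 2 m := by
  obtain ⟨C, hC, hlow⟩ := low hc hadv
  refine ⟨C, hC, ?_⟩
  intro n n' L K m s t hst hL hK hn ℓ ℓ' hℓ' hℓℓ' hℓn' 𝒢 h𝒢 ks f hks hf hcert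
  have hLK : 1 ≤ L * K := Nat.one_le_iff_ne_zero.2 (Nat.mul_ne_zero (by omega) (by omega))
  have hlogLK : 0 ≤ Real.logb 2 ((L : ℝ) * K) := by
    apply Real.logb_nonneg (by norm_num)
    exact_mod_cast hLK
  have hlog0 : ∀ a : ℕ, 0 ≤ Real.logb 2 (a : ℝ) := by
    intro a
    rcases Nat.eq_zero_or_pos a with h | h
    · rw [h]
      simp
    · exact Real.logb_nonneg (by norm_num) (by exact_mod_cast h)
  rcases (by omega : n' = 1 ∨ 2 ≤ n') with hn1 | hn2
  · -- one vertex: the bound is trivial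
    have hℓ1 : ℓ' = 1 := by omega
    have htriv : mainTerm n' ℓ' - C * (errTerm n' ℓ' + Real.logb 2 (L * K)) ≤ 0 := by
      rw [hn1, hℓ1]
      unfold mainTerm errTerm
      simp only [Nat.cast_one, Real.logb_one]
      have := mul_nonneg hC.le hlogLK
      norm_num
      linarith
    exact htriv.trans (hlog0 _)
  · obtain ⟨s', hs'⟩ : ∃ s' : Fin n', s' = ⟨0, by omega⟩ := ⟨_, rfl⟩
    obtain ⟨t', ht'⟩ : ∃ t' : Fin n', t' = ⟨1, by omega⟩ := ⟨_, rfl⟩
    have hst' : s' ≠ t' := by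
      rw [hs', ht']
      intro h
      have := congrArg Fin.val h
      simp at this
    obtain ⟨σ, hσ⟩ := FinalAux.reduce (L := L) hst hst' hK hn
    have hcast : ((L * K : ℕ) : ℝ) = (L : ℝ) * K := by push_cast; rfl
    rw [← hcast]
    have h1 := (hσ (fun X => ¬ f X) ℓ ℓ' hℓℓ').1 𝒢 h𝒢 (solves_not hcert)
    have h2 := adaptive_pull (𝓜' := CoM m) σ (fun g hg => coM_pull hg σ) (adaptive_not hf)
    have h3 := rounds_loc (coM_mono m) h2
    exact hlow n' s' t' hst' ℓ' hℓ' hℓn' (L * K) _ m hLK hks _ h3 h1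

end NotI
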