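import Pool.Agent.Lib.NotI.Net
import Pool.Agent.Lib.MTU.Model
import Pool.Agent.Lib.MTN.UForm

/-!
# NotI.MachB (MP_e46137_lc): nondeterministic networks as nondeterministic machines
-/

namespace NotI

open Finset Classical Pool.Agent.Lib.Pe46137 Pool.Agent.Lib.Pe46137X MonSize

namespace MachAux

/-- the machine of a network: a state is a state of the network, or a contact (with its first and
last state and the vertex `a` of its label `(a, b)`) which is being checked -/
def mach {n m : ℕ} (s₀ : Fin n) (N : CoNet (Fin n × Fin n) (Fin m)) :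
    Unreach.Mach n (Fin m ⊕ (Fin m × Fin m × Fin n)) where
  start := Sum.inl N.source
  acc := fun w => w = Sum.inl N.sink
  v := fun _ w => match w with
    | Sum.inl _ => s₀
    | Sum.inr x => x.2.2
  step := fun _ w w' G => match w, w' with
    | Sum.inl v, Sum.inl v' => v = v' ∨ N.free v v'
    | Sum.inl v, Sum.inr x => x.1 = v
    | Sum.inr x, Sum.inl v' => v' = x.2.1 ∧ ∃ b, G x.2.2 b = false ∧ N.lab (x.2.2, b) x.1 x.2.1
    | Sum.inr _, Sum.inr _ => False
  loc := by
    intro t w w' G G' h hs
    rcases w with v | x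
    · rcases w' with v' | x'
      · exact hs
      · exact hs
    · rcases w' with v' | x'
      · obtain ⟨h1, b, h2, h3⟩ := hs
        refine ⟨h1, b, ?_, h3⟩
        rw [← (h b).1]
        exact h2
      · exact hs

/-- a closed contact on the matrix `G` -/
def Cl {n m : ℕ} (N : CoNet (Fin n × Fin n) (Fin m)) (G : Fin n → Fin n → Bool)
    (v w : Fin m) : Prop := N.free v w ∨ ∃ a b, G a b = false ∧ N.lab (a, b) v w

theorem cl_iff {n m : ℕ} (N : CoNet (Fin n × Fin n) (Fin m)) (G : Fin n → Fin n → Bool) :
    N.Accepts (MTN.setOf' G) ↔ Relation.ReflTransGen (Cl N G) N.source N.sink := by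
  have h : (fun v w => N.free v w ∨ ∃ e, e ∉ MTN.setOf' G ∧ N.lab e v w) = Cl N G := by
    funext v w
    apply propext
    unfold Cl
    constructor
    · rintro (h | ⟨⟨a, b⟩, h1, h2⟩)
      · exact Or.inl h
      · refine Or.inr ⟨a, b, ?_, h2⟩
        have h3 : ¬ (G a b = true) := h1
        simpa using h3
    · rintro (h | ⟨a, b, h1, h2⟩)
      · exact Or.inl h
      · refine Or.inr ⟨(a, b), ?_, h2⟩
        show ¬ (G a b = true)
        rw [h1]
        simp
  unfold CoNet.Accepts
  rw [h]

theorem accepts_of_comp {n m T : ℕ} (s₀ : Fin n) (N : CoNet (Fin n × Fin n) (Fin m))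
    (G : Fin n → Fin n → Bool) (h : (mach s₀ N).AcceptsUsing T 0 G) :
    N.Accepts (MTN.setOf' G) := by
  obtain ⟨R, K, hK, -, hacc, hcomp⟩ := h
  have hK0 : K = ∅ := Finset.card_eq_zero.1 (Nat.le_zero.1 hK)
  subst hK0
  obtain ⟨h0, hstep⟩ := hcomp G (fun e he => absurd he (Finset.notMem_empty e))
    (fun _ _ => le_rfl)
  rw [cl_iff]
  have key : ∀ t ≤ T, (∀ v, R t = Sum.inl v → Relation.ReflTransGen (Cl N G) N.source v) ∧
      (∀ x, R t = Sum.inr x → Relation.ReflTransGen (Cl N G) N.source x.1) := by
    intro t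
    induction t with
    | zero =>
      intro _
      constructor
      · intro v hv
        have h1 : Sum.inl N.source = (Sum.inl v : Fin m ⊕ (Fin m × Fin m × Fin n)) :=
          h0.symm.trans hv
        rw [Sum.inl.inj h1]
      · intro x hx
        have h1 : Sum.inl N.source = (Sum.inr x : Fin m ⊕ (Fin m × Fin m × Fin n)) :=
          h0.symm.trans hx
        exact absurd h1 (by simp)
    | succ t ih =>
      intro ht
      obtain ⟨ih1, ih2⟩ := ih (by omega)
      have hs := hstep t (by omega)
      rcases h1 : R t with v | x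
      · rw [h1] at hs
        constructor
        · intro v' hv'
          rw [hv'] at hs
          have hs' : v = v' ∨ N.free v v' := hs
          rcases hs' with rfl | hs'
          · exact ih1 v h1
          · exact (ih1 v h1).tail (Or.inl hs')
        · intro x hx
          rw [hx] at hs
          have hs' : x.1 = v := hs
          rw [hs']
          exact ih1 v h1
      · rw [h1] at hs
        constructor
        · intro v' hv'
          rw [hv'] at hs
          obtain ⟨h2, b, h3, h4⟩ : v' = x.2.1 ∧ ∃ b, G x.2.2 b = false ∧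
            N.lab (x.2.2, b) x.1 x.2.1 := hs
          rw [h2]
          exact (ih2 x h1).tail (Or.inr ⟨_, _, h3, h4⟩)
        · intro x' hx'
          rw [hx'] at hs
          exact hs.elim
  exact (key T le_rfl).1 _ hacc

theorem comp_of_accepts {n m : ℕ} (s₀ : Fin n) (N : CoNet (Fin n × Fin n) (Fin m))
    (G : Fin n → Fin n → Bool) (h : N.Accepts (MTN.setOf' G)) :
    (mach s₀ N).AcceptsUsing (2 * m) 0 G := by
  rw [cl_iff] at h
  obtain ⟨L, hL⟩ := joinedIn_of_reflTransGen h
  obtain ⟨r, -, w, h0, h1, h2, h3⟩ := hL.shortest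
  have hr : r + 1 ≤ m := by
    have := Fintype.card_le_of_injective (fun i : Fin (r + 1) => w i) (fun i j hij => by
      have := h3 (show (i : ℕ) ∈ Set.Iic r from Nat.lt_succ_iff.mp i.2)
        (show (j : ℕ) ∈ Set.Iic r from Nat.lt_succ_iff.mp j.2) hij
      exact Fin.ext this)
    rwa [Fintype.card_fin, Fintype.card_fin] at this
  -- the middle states
  have hmid : ∀ j < r, ∃ y : Fin m ⊕ (Fin m × Fin m × Fin n),
      ∀ (t : ℕ) (G' : Fin n → Fin n → Bool), (∀ u v, G' u v ≤ G u v) →
        (mach s₀ N).step t (Sum.inl (w j)) y G' ∧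
          (mach s₀ N).step t y (Sum.inl (w (j + 1))) G' := by
    intro j hj
    rcases h2 j hj with h4 | ⟨a, b, h4, h5⟩
    · exact ⟨Sum.inl (w (j + 1)), fun t G' _ => ⟨Or.inr h4, Or.inl rfl⟩⟩
    · refine ⟨Sum.inr (w j, w (j + 1), a), fun t G' hG' => ⟨rfl, rfl, b, ?_, h5⟩⟩
      have := hG' a b
      rw [h4] at this
      exact Bool.eq_false_iff.2 fun h6 => by
        rw [h6] at this
        exact absurd this (by decide)
  choose y hy using hmid
  obtain ⟨R, hR⟩ : ∃ R : ℕ → Fin m ⊕ (Fin m × Fin m × Fin n), R = fun t =>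
    if h : t / 2 < r then (if t % 2 = 0 then Sum.inl (w (t / 2)) else y (t / 2) h)
    else Sum.inl (w r) := ⟨_, rfl⟩
  refine ⟨R, ∅, le_rfl, fun e he => absurd he (Finset.notMem_empty e), ?_, ?_⟩
  · show R (2 * m) = Sum.inl N.sink
    rw [hR]
    beta_reduce
    rw [dif_neg (by omega), h1]
  · intro G' _ hG'
    constructor
    · show R 0 = Sum.inl N.source
      rw [hR]
      beta_reduce
      by_cases hr0 : 0 / 2 < r
      · rw [dif_pos hr0, if_pos (by norm_num)]
        simp [h0]
      · have hr00 : r = 0 := by omega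
        rw [dif_neg hr0, hr00, h0]
    · intro t ht
      rw [hR]
      beta_reduce
      by_cases htr : t / 2 < r
      · by_cases hpar : t % 2 = 0
        · have e1 : (t + 1) / 2 = t / 2 := by omega
          have e2 : ¬ (t + 1) % 2 = 0 := by omega
          have htr' : (t + 1) / 2 < r := by omega
          rw [dif_pos htr, if_pos hpar, dif_pos htr', if_neg e2]
          have h4 := (hy (t / 2) htr t G' hG').1
          have h5 : y ((t + 1) / 2) htr' = y (t / 2) htr := by
            congr 1
          rw [h5]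
          exact h4
        · have e1 : (t + 1) / 2 = t / 2 + 1 := by omega
          have e2 : (t + 1) % 2 = 0 := by omega
          have h4 := (hy (t / 2) htr t G' hG').2
          rw [dif_pos htr, if_neg hpar]
          by_cases htr' : (t + 1) / 2 < r
          · rw [dif_pos htr', if_pos e2, e1]
            exact h4
          · rw [dif_neg htr']
            have e3 : r = t / 2 + 1 := by omega
            have e4 : w r = w (t / 2 + 1) := by rw [e3]
            rw [e4]
            exact h4
      · have htr' : ¬ (t + 1) / 2 < r := by omega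
        rw [dif_neg htr, dif_neg htr']
        exact Or.inl rfl

end MachAux

open MachAux

/-- a network with `m` states as a machine -/
theorem byCo_mach {n m : ℕ} (s₀ : Fin n) {f : Set (Fin n × Fin n) → Prop} (hf : ByCo m f) :
    ∃ M : Unreach.Mach n (Fin m ⊕ (Fin m × Fin m × Fin n)),
      ∀ G : Fin n → Fin n → Bool, M.AcceptsUsing (2 * m) 0 G ↔ f (MTN.setOf' G) := by
  obtain ⟨N, hN⟩ := hf
  refine ⟨mach s₀ N, fun G => ⟨fun h => ?_, fun h => ?_⟩⟩
  · exact (hN _).2 (accepts_of_comp s₀ N G h)
  · exact comp_of_accepts s₀ N G ((hN _).1 h)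

theorem setOf_pathGraph {n r : ℕ} (s t : Fin n) (P : Fin r → Fin n) :
    MTN.setOf' (SharpTS.pathGraph s t P) = pathEdges s t P := by
  have hv : ∀ i, SharpTS.pathVertex s t P i = pathVertex s t P i := by
    intro i
    cases i with
    | zero => rfl
    | succ i => rfl
  ext ⟨a, b⟩
  show SharpTS.pathGraph s t P a b = true ↔ _
  unfold SharpTS.pathGraph pathEdges pathArcs
  rw [decide_eq_true_iff]
  simp only [hv, Set.mem_ofPred_eq, Prod.swap_prod_mk, Prod.mk.injEq]
  constructor
  · rintro ⟨q, hq, h | h⟩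
    · exact Or.inl ⟨q, hq, h⟩
    · exact Or.inr ⟨q, hq, h⟩
  · rintro (⟨q, hq, h⟩ | ⟨q, hq, h⟩)
    · exact ⟨q, hq, Or.inl h⟩
    · exact ⟨q, hq, Or.inr h⟩

theorem setOf_cutGraph {n : ℕ} (C : Finset (Fin n)) :
    MTN.setOf' (SharpTS.cutGraph C) = cutEdges C := by
  ext ⟨a, b⟩
  show SharpTS.cutGraph C a b = true ↔ _
  unfold SharpTS.cutGraph cutEdges
  rw [decide_eq_true_iff]
  rfl

/-- the advantage of a network is that of its machine -/
theorem adv_eq_mach {n m d : ℕ} (s t : Fin n) {f : Set (Fin n × Fin n) → Prop}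
    {M : Unreach.Mach n (Fin m ⊕ (Fin m × Fin m × Fin n))}
    (hM : ∀ G : Fin n → Fin n → Bool, M.AcceptsUsing (2 * m) 0 G ↔ f (MTN.setOf' G)) :
    (((cuts n s t).filter (fun C => f (cutEdges C))).card : ℝ) / (cuts n s t).card -
      (((seqs n (d - 1) s t).filter (fun P => f (pathEdges s t P))).card : ℝ) /
        (seqs n (d - 1) s t).card =
      Unreach.accCut M (2 * m) 0 s t - Unreach.accPath M (2 * m) d s t := by
  have e1 : Unreach.accPath M (2 * m) d s t =
      (((seqs n (d - 1) s t).filter (fun P => f (pathEdges s t P))).card : ℝ) /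
        (seqs n (d - 1) s t).card := by
    unfold Unreach.accPath
    have h12 : (SharpTS.seqs n (d - 1) s t).filter (fun P =>
        M.AcceptsUsing (2 * m) 0 (SharpTS.pathGraph s t P)) =
        (seqs n (d - 1) s t).filter (fun P => f (pathEdges s t P)) := by
      ext P
      have h13 : (P ∈ SharpTS.seqs n (d - 1) s t) ↔ P ∈ seqs n (d - 1) s t := Iff.rfl
      rw [mem_filter, mem_filter, h13, hM, setOf_pathGraph]
    rw [h12]
    rfl
  have e2 : Unreach.accCut M (2 * m) 0 s t =
      (((cuts n s t).filter (fun C => f (cutEdges C))).card : ℝ) / (cuts n s t).card := by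
    unfold Unreach.accCut
    have h12 : (SharpTS.cuts n s t).filter (fun C =>
        M.AcceptsUsing (2 * m) 0 (SharpTS.cutGraph C)) =
        (cuts n s t).filter (fun C => f (cutEdges C)) := by
      ext C
      have h13 : (C ∈ SharpTS.cuts n s t) ↔ C ∈ cuts n s t := Iff.rfl
      rw [mem_filter, mem_filter, h13, hM, setOf_cutGraph]
    rw [h12]
    rfl
  rw [e1, e2]

end NotI
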