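import Pool.Agent.Lib.NotI.Stmt
import Pool.Agent.Lib.NotG.Base

/-!
# Module NotI.Net (MP_e46137_lc): nondeterministic networks: closure properties

* `byCo_of_type`: transport along `Fintype.equivFin`, then `byCo_pad`.
* `byCo_pad`: `Fin m` into `Fin m'` by `Fin.castLE`; the other states are isolated.
* `byCo_pull`: same states; `free v w := N.free v w ∨ ∃ x, σ x = inl false ∧ N.lab x v w`,
  `lab e v w := ∃ x, σ x = inr e ∧ N.lab x v w`.
* `byCo_and`, `byCo_or`: disjoint union `Fin a ⊕ Fin b`; `and`: free contact from the first sink to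
  the second source; `or`: free contacts from the first to the second source and from the second to
  the first sink, source and sink of the first.
* `byCo_andList`: `byCo_and` along the list, `byCo_pad` at the end.
* `byCo_comp`: states `P ⊕ (P × P) × Fin m`: the nodes, and for each pair `(a, b)` of nodes a copy of
  the network of `f a b`; free contacts from `a` to the source and from the sink to `b` of the copy
  `(a, b)`. Invariant for soundness: a state `inr ((a, b), v)` is reached only if `a` is reachable
  through edges that are true and `v` is reachable from the source of the copy.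
-/

namespace NotI

open NotG

variable {E E' : Type}

namespace NetAux

/-- a closed contact from `v` to `w` -/
def St {W : Type} (N : CoNet E W) (X : Set E) (v w : W) : Prop :=
  N.free v w ∨ ∃ e, e ∉ X ∧ N.lab e v w

theorem acc_iff {W : Type} (N : CoNet E W) (X : Set E) :
    N.Accepts X ↔ Relation.ReflTransGen (St N X) N.source N.sink := Iff.rfl

/-- an invariant that holds at the source holds at each reachable state -/
theorem inv {W : Type} {r : W → W → Prop} {a b : W} (P : W → Prop) (h : Relation.ReflTransGen r a b)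
    (ha : P a) (hs : ∀ v w, P v → r v w → P w) : P b := by
  induction h with
  | refl => exact ha
  | tail _ h2 ih => exact hs _ _ ih h2

/-- the image of a network under an injection -/
def img {W W' : Type} (N : CoNet E W) (g : W → W') : CoNet E W' where
  source := g N.source
  sink := g N.sink
  free := fun v w => ∃ a b, g a = v ∧ g b = w ∧ N.free a b
  lab := fun e v w => ∃ a b, g a = v ∧ g b = w ∧ N.lab e a b

theorem img_acc {W W' : Type} (N : CoNet E W) {g : W → W'} (hg : Function.Injective g)
    (X : Set E) : N.Accepts X ↔ (img N g).Accepts X := by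
  rw [acc_iff, acc_iff]
  constructor
  · intro h
    refine Relation.ReflTransGen.lift g (fun a b hab => ?_) _ _ h
    rcases hab with h1 | ⟨e, he, h1⟩
    · exact Or.inl ⟨a, b, rfl, rfl, h1⟩
    · exact Or.inr ⟨e, he, a, b, rfl, rfl, h1⟩
  · intro h
    have h1 := inv (fun v => ∃ b, g b = v ∧ Relation.ReflTransGen (St N X) N.source b) h
      ⟨N.source, rfl, Relation.ReflTransGen.refl⟩ (by
        rintro v w ⟨b, rfl, hb⟩ hvw
        rcases hvw with ⟨a, c, h2, rfl, h3⟩ | ⟨e, he, a, c, h2, rfl, h3⟩
        · rw [hg h2] at h3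
          exact ⟨c, rfl, hb.tail (Or.inl h3)⟩
        · rw [hg h2] at h3
          exact ⟨c, rfl, hb.tail (Or.inr ⟨e, he, h3⟩)⟩)
    obtain ⟨b, hb, h2⟩ := h1
    rwa [hg hb] at h2

theorem intro' {W : Type} [Fintype W] {m : ℕ} (hW : Fintype.card W ≤ m) (N : CoNet E W)
    {f : Set E → Prop} (h : ∀ X, f X ↔ N.Accepts X) : ByCo m f := by
  have h1 : Fintype.card W ≤ Fintype.card (Fin m) := by rwa [Fintype.card_fin]
  obtain ⟨g⟩ := Function.Embedding.nonempty_of_card_le h1
  exact ⟨img N g, fun X => (h X).trans (img_acc N g.injective X)⟩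

/-- networks in series -/
def ser {V W : Type} (N : CoNet E V) (M : CoNet E W) : CoNet E (V ⊕ W) where
  source := Sum.inl N.source
  sink := Sum.inr M.sink
  free := fun v w => match v, w with
    | Sum.inl v, Sum.inl w => N.free v w
    | Sum.inr v, Sum.inr w => M.free v w
    | Sum.inl v, Sum.inr w => v = N.sink ∧ w = M.source
    | Sum.inr _, Sum.inl _ => False
  lab := fun e v w => match v, w with
    | Sum.inl v, Sum.inl w => N.lab e v w
    | Sum.inr v, Sum.inr w => M.lab e v w
    | Sum.inl _, Sum.inr _ => False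
    | Sum.inr _, Sum.inl _ => False

theorem ser_acc {V W : Type} (N : CoNet E V) (M : CoNet E W) (X : Set E) :
    (ser N M).Accepts X ↔ N.Accepts X ∧ M.Accepts X := by
  rw [acc_iff, acc_iff, acc_iff]
  constructor
  · intro h
    exact inv (fun v => match v with
      | Sum.inl v => Relation.ReflTransGen (St N X) N.source v
      | Sum.inr w => Relation.ReflTransGen (St N X) N.source N.sink ∧
          Relation.ReflTransGen (St M X) M.source w) h Relation.ReflTransGen.refl (by
        rintro (v | v) (w | w) hv hvw
        · refine Relation.ReflTransGen.tail hv ?_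
          rcases hvw with h1 | ⟨e, he, h1⟩
          · exact Or.inl h1
          · exact Or.inr ⟨e, he, h1⟩
        · rcases hvw with ⟨h1, h2⟩ | ⟨e, he, h1⟩
          · subst h1 h2
            exact ⟨hv, Relation.ReflTransGen.refl⟩
          · exact h1.elim
        · rcases hvw with h1 | ⟨e, he, h1⟩
          · exact h1.elim
          · exact h1.elim
        · refine ⟨hv.1, Relation.ReflTransGen.tail hv.2 ?_⟩
          rcases hvw with h1 | ⟨e, he, h1⟩
          · exact Or.inl h1
          · exact Or.inr ⟨e, he, h1⟩)
  · rintro ⟨h1, h2⟩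
    have h3 : Relation.ReflTransGen (St (ser N M) X) (Sum.inl N.source) (Sum.inl N.sink) := by
      refine Relation.ReflTransGen.lift Sum.inl (fun a b hab => ?_) _ _ h1
      rcases hab with h1 | ⟨e, he, h1⟩
      · exact Or.inl h1
      · exact Or.inr ⟨e, he, h1⟩
    have h4 : Relation.ReflTransGen (St (ser N M) X) (Sum.inr M.source) (Sum.inr M.sink) := by
      refine Relation.ReflTransGen.lift Sum.inr (fun a b hab => ?_) _ _ h2
      rcases hab with h1 | ⟨e, he, h1⟩
      · exact Or.inl h1
      · exact Or.inr ⟨e, he, h1⟩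
    have h5 : St (ser N M) X (Sum.inl N.sink) (Sum.inr M.source) := Or.inl ⟨rfl, rfl⟩
    exact (h3.tail h5).trans h4

/-- networks in parallel -/
def par {V W : Type} (N : CoNet E V) (M : CoNet E W) : CoNet E (V ⊕ W) where
  source := Sum.inl N.source
  sink := Sum.inl N.sink
  free := fun v w => match v, w with
    | Sum.inl v, Sum.inl w => N.free v w
    | Sum.inr v, Sum.inr w => M.free v w
    | Sum.inl v, Sum.inr w => v = N.source ∧ w = M.source
    | Sum.inr v, Sum.inl w => v = M.sink ∧ w = N.sink
  lab := fun e v w => match v, w with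
    | Sum.inl v, Sum.inl w => N.lab e v w
    | Sum.inr v, Sum.inr w => M.lab e v w
    | Sum.inl _, Sum.inr _ => False
    | Sum.inr _, Sum.inl _ => False

theorem par_acc {V W : Type} (N : CoNet E V) (M : CoNet E W) (X : Set E) :
    (par N M).Accepts X ↔ N.Accepts X ∨ M.Accepts X := by
  rw [acc_iff, acc_iff, acc_iff]
  constructor
  · intro h
    exact inv (fun v => match v with
      | Sum.inl v => Relation.ReflTransGen (St N X) N.source v ∨
          Relation.ReflTransGen (St M X) M.source M.sink
      | Sum.inr w => Relation.ReflTransGen (St M X) M.source w) h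
      (Or.inl Relation.ReflTransGen.refl) (by
        rintro (v | v) (w | w) hv hvw
        · rcases hv with hv | hv
          · refine Or.inl (Relation.ReflTransGen.tail hv ?_)
            rcases hvw with h1 | ⟨e, he, h1⟩
            · exact Or.inl h1
            · exact Or.inr ⟨e, he, h1⟩
          · exact Or.inr hv
        · rcases hvw with ⟨h1, h2⟩ | ⟨e, he, h1⟩
          · subst h2
            exact Relation.ReflTransGen.refl
          · exact h1.elim
        · rcases hvw with ⟨h1, h2⟩ | ⟨e, he, h1⟩
          · subst h1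
            exact Or.inr hv
          · exact h1.elim
        · refine Relation.ReflTransGen.tail hv ?_
          rcases hvw with h1 | ⟨e, he, h1⟩
          · exact Or.inl h1
          · exact Or.inr ⟨e, he, h1⟩)
  · intro h
    have h3 : Relation.ReflTransGen (St N X) N.source N.sink →
        Relation.ReflTransGen (St (par N M) X) (Sum.inl N.source) (Sum.inl N.sink) := by
      intro h1
      refine Relation.ReflTransGen.lift Sum.inl (fun a b hab => ?_) _ _ h1
      rcases hab with h1 | ⟨e, he, h1⟩
      · exact Or.inl h1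
      · exact Or.inr ⟨e, he, h1⟩
    have h4 : Relation.ReflTransGen (St M X) M.source M.sink →
        Relation.ReflTransGen (St (par N M) X) (Sum.inr M.source) (Sum.inr M.sink) := by
      intro h1
      refine Relation.ReflTransGen.lift Sum.inr (fun a b hab => ?_) _ _ h1
      rcases hab with h1 | ⟨e, he, h1⟩
      · exact Or.inl h1
      · exact Or.inr ⟨e, he, h1⟩
    rcases h with h | h
    · exact h3 h
    · have h5 : St (par N M) X (Sum.inl N.source) (Sum.inr M.source) := Or.inl ⟨rfl, rfl⟩
      have h6 : St (par N M) X (Sum.inr M.sink) (Sum.inl N.sink) := Or.inl ⟨rfl, rfl⟩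
      exact Relation.ReflTransGen.head h5 ((h4 h).tail h6)

/-- the edges of a graph replaced by networks -/
def comp {P W : Type} (N : P → P → CoNet E W) (p q : P) : CoNet E (P ⊕ (P × P) × W) where
  source := Sum.inl p
  sink := Sum.inl q
  free := fun v w => match v, w with
    | Sum.inl _, Sum.inl _ => False
    | Sum.inl a, Sum.inr (c, w) => c.1 = a ∧ w = (N c.1 c.2).source
    | Sum.inr (c, v), Sum.inl b => c.2 = b ∧ v = (N c.1 c.2).sink
    | Sum.inr (c, v), Sum.inr (c', w) => c' = c ∧ (N c.1 c.2).free v w
  lab := fun e v w => match v, w with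
    | Sum.inl _, Sum.inl _ => False
    | Sum.inl _, Sum.inr _ => False
    | Sum.inr _, Sum.inl _ => False
    | Sum.inr (c, v), Sum.inr (c', w) => c' = c ∧ (N c.1 c.2).lab e v w

theorem comp_acc {P W : Type} (N : P → P → CoNet E W) (p q : P) (X : Set E) :
    (comp N p q).Accepts X ↔ Relation.ReflTransGen (fun a b => (N a b).Accepts X) p q := by
  rw [acc_iff]
  constructor
  · intro h
    exact inv (fun v => match v with
      | Sum.inl a => Relation.ReflTransGen (fun a b => (N a b).Accepts X) p a
      | Sum.inr (c, w) => Relation.ReflTransGen (fun a b => (N a b).Accepts X) p c.1 ∧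
          Relation.ReflTransGen (St (N c.1 c.2) X) (N c.1 c.2).source w) h
      Relation.ReflTransGen.refl (by
        rintro (a | ⟨c, v⟩) (b | ⟨c', w⟩) hv hvw
        · rcases hvw with h1 | ⟨e, he, h1⟩
          · exact h1.elim
          · exact h1.elim
        · rcases hvw with ⟨h1, h2⟩ | ⟨e, he, h1⟩
          · subst h1 h2
            exact ⟨hv, Relation.ReflTransGen.refl⟩
          · exact h1.elim
        · rcases hvw with ⟨h1, h2⟩ | ⟨e, he, h1⟩
          · subst h1 h2
            exact Relation.ReflTransGen.tail hv.1 hv.2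
          · exact h1.elim
        · rcases hvw with ⟨h1, h2⟩ | ⟨e, he, h1, h2⟩
          · subst h1
            exact ⟨hv.1, Relation.ReflTransGen.tail hv.2 (Or.inl h2)⟩
          · subst h1
            exact ⟨hv.1, Relation.ReflTransGen.tail hv.2 (Or.inr ⟨e, he, h2⟩)⟩)
  · intro h
    refine Relation.ReflTransGen.lift' Sum.inl (fun a b hab => ?_) _ _ h
    have h1 : St (comp N p q) X (Sum.inl a) (Sum.inr ((a, b), (N a b).source)) :=
      Or.inl ⟨rfl, rfl⟩
    have h2 : St (comp N p q) X (Sum.inr ((a, b), (N a b).sink)) (Sum.inl b) :=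
      Or.inl ⟨rfl, rfl⟩
    have h3 : Relation.ReflTransGen (St (comp N p q) X) (Sum.inr ((a, b), (N a b).source))
        (Sum.inr ((a, b), (N a b).sink)) := by
      refine Relation.ReflTransGen.lift (fun v => Sum.inr ((a, b), v)) (fun v w hvw => ?_) _ _ hab
      rcases hvw with h1 | ⟨e, he, h1⟩
      · exact Or.inl ⟨rfl, h1⟩
      · exact Or.inr ⟨e, he, rfl, h1⟩
    exact Relation.ReflTransGen.head h1 (h3.tail h2)

end NetAux

open NetAux

theorem byCo_anti {m : ℕ} {f : Set E → Prop} (hf : ByCo m f) {X Y : Set E} (h : X ⊆ Y) :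
    f Y → f X := by
  obtain ⟨N, hN⟩ := hf
  rw [hN X, hN Y]
  intro h1
  refine Relation.ReflTransGen.mono (fun v w hvw => ?_) _ _ h1
  rcases hvw with h2 | ⟨e, he, h2⟩
  · exact Or.inl h2
  · exact Or.inr ⟨e, fun h3 => he (h h3), h2⟩

theorem byCo_pad {m m' : ℕ} (h : m ≤ m') {f : Set E → Prop} (hf : ByCo m f) : ByCo m' f := by
  obtain ⟨N, hN⟩ := hf
  exact intro' (by rwa [Fintype.card_fin]) N hN

theorem byCo_of_type {W : Type} [Fintype W] {m : ℕ} (hW : Fintype.card W ≤ m) (N : CoNet E W) :
    ByCo m N.Accepts := intro' hW N fun _ => Iff.rfl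

theorem byCo_pull {m : ℕ} {f : Set E → Prop} (hf : ByCo m f) (σ : E → Bool ⊕ E') :
    ByCo m (fun Y => f (pull σ Y)) := by
  obtain ⟨N, hN⟩ := hf
  refine ⟨⟨N.source, N.sink, fun v w => N.free v w ∨ ∃ x, σ x = Sum.inl false ∧ N.lab x v w,
    fun e v w => ∃ x, σ x = Sum.inr e ∧ N.lab x v w⟩, fun Y => ?_⟩
  show f (pull σ Y) ↔ _
  rw [hN, acc_iff, acc_iff]
  constructor
  · intro h
    refine Relation.ReflTransGen.mono (fun v w hvw => ?_) _ _ h
    rcases hvw with h2 | ⟨x, hx, h2⟩
    · exact Or.inl (Or.inl h2)
    · rcases hs : σ x with b | e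
      · cases b with
        | false => exact Or.inl (Or.inr ⟨x, hs, h2⟩)
        | true => exact absurd (Or.inl hs) hx
      · exact Or.inr ⟨e, fun he => hx (Or.inr ⟨e, he, hs⟩), x, hs, h2⟩
  · intro h
    refine Relation.ReflTransGen.mono (fun v w hvw => ?_) _ _ h
    rcases hvw with (h2 | ⟨x, hs, h2⟩) | ⟨e, he, x, hs, h2⟩
    · exact Or.inl h2
    · refine Or.inr ⟨x, ?_, h2⟩
      rintro (h3 | ⟨e, _, h3⟩)
      · rw [hs] at h3
        exact absurd h3 (by simp)
      · rw [hs] at h3
        exact absurd h3 (by simp)
    · refine Or.inr ⟨x, ?_, h2⟩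
      rintro (h3 | ⟨e', he', h3⟩)
      · rw [hs] at h3
        exact absurd h3 (by simp)
      · rw [hs] at h3
        exact he (by rwa [Sum.inr.inj h3])

theorem byCo_true {m : ℕ} (hm : 1 ≤ m) : ByCo m (fun _ : Set E => True) := by
  refine intro' (W := Unit) (by rwa [Fintype.card_unit])
    ⟨(), (), fun _ _ => False, fun _ _ _ => False⟩ fun X => ?_
  exact ⟨fun _ => Relation.ReflTransGen.refl, fun _ => trivial⟩

theorem byCo_false {m : ℕ} (hm : 2 ≤ m) : ByCo m (fun _ : Set E => False) := by
  refine intro' (W := Bool) (by rwa [Fintype.card_bool])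
    ⟨false, true, fun _ _ => False, fun _ _ _ => False⟩ fun X => ?_
  refine ⟨fun h => h.elim, fun h => ?_⟩
  rw [acc_iff] at h
  have h1 := inv (fun v => v = false) h rfl (by
    rintro v w _ (h2 | ⟨e, _, h2⟩)
    · exact h2.elim
    · exact h2.elim)
  exact absurd h1 (by simp)

theorem byCo_lit {m : ℕ} (hm : 2 ≤ m) (e : E) : ByCo m (fun X : Set E => e ∉ X) := by
  refine intro' (W := Bool) (by rwa [Fintype.card_bool])
    ⟨false, true, fun _ _ => False, fun e' v w => e' = e ∧ v = false ∧ w = true⟩ fun X => ?_
  rw [acc_iff]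
  constructor
  · intro h
    exact Relation.ReflTransGen.single (Or.inr ⟨e, h, rfl, rfl, rfl⟩)
  · intro h
    exact inv (fun v => v = true → e ∉ X) h (fun h1 => absurd h1 (by simp)) (by
      rintro v w _ (h2 | ⟨e', he', h2, _, _⟩)
      · exact h2.elim
      · intro _
        rwa [h2] at he') rfl

theorem byCo_and {a b : ℕ} {f g : Set E → Prop} (hf : ByCo a f) (hg : ByCo b g) :
    ByCo (a + b) (fun X => f X ∧ g X) := by
  obtain ⟨N, hN⟩ := hf
  obtain ⟨M, hM⟩ := hg
  refine intro' (by simp) (ser N M) fun X => ?_
  rw [hN, hM, ser_acc]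

theorem byCo_or {a b : ℕ} {f g : Set E → Prop} (hf : ByCo a f) (hg : ByCo b g) :
    ByCo (a + b) (fun X => f X ∨ g X) := by
  obtain ⟨N, hN⟩ := hf
  obtain ⟨M, hM⟩ := hg
  refine intro' (by simp) (par N M) fun X => ?_
  rw [hN, hM, par_acc]

/-- the conjunction of at least one and at most `W` functions -/
theorem byCo_andList {m W : ℕ} {l : List (Set E → Prop)} (hl : l ≠ []) (hW : l.length ≤ W)
    (h : ∀ g ∈ l, ByCo m g) : ByCo (W * m) (fun X => ∀ g ∈ l, g X) := by
  refine byCo_pad (Nat.mul_le_mul_right m hW) ?_
  clear hW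
  induction l with
  | nil => exact absurd rfl hl
  | cons g l ih =>
    rcases eq_or_ne l [] with h1 | h1
    · subst h1
      have h2 : (fun X => ∀ g' ∈ [g], g' X) = g := by
        funext X
        simp
      rw [h2, List.length_singleton, one_mul]
      exact h g (List.mem_singleton_self g)
    · have h2 : (fun X => ∀ g' ∈ g :: l, g' X) = fun X => g X ∧ ∀ g' ∈ l, g' X := by
        funext X
        rw [List.forall_mem_cons]
      rw [h2, List.length_cons, Nat.add_mul, one_mul, Nat.add_comm]
      exact byCo_and (h g List.mem_cons_self)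
        (ih h1 fun g' hg' => h g' (List.mem_cons_of_mem g hg'))

/-- composition: reachability in a graph whose edges are given by networks -/
theorem byCo_comp {P : Type} [Fintype P] {m : ℕ} {f : P → P → Set E → Prop}
    (hf : ∀ a b, ByCo m (f a b)) (p q : P) :
    ByCo (Fintype.card P + Fintype.card P ^ 2 * m)
      (fun X => Relation.ReflTransGen (fun a b => f a b X) p q) := by
  choose N hN using hf
  refine intro' (by simp [sq]) (comp N p q) fun X => ?_
  rw [comp_acc]
  have h1 : (fun a b => f a b X) = fun a b => (N a b).Accepts X := by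
    funext a b
    exact propext (hN a b X)
  rw [h1]

end NotI
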