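import Pool.Agent.Lib.NotI.Net

/-!
# Module NotI.Poly (MP_e46137_lc): polynomial networks relative to a set of inputs

`Rel 𝒳 B a f`: on the inputs in `𝒳` the function `f` agrees with a function computed by a network with
at most `B ^ a` states (`B ≥ 2`).
* `rel_comp`: choose the functions of the edges, `byCo_comp`; for `card P ≤ B ^ b`:
  `B ^ b + B ^ (2 b) * B ^ a ≤ B ^ (2 b + a + 1)`.
* `rel_thr` (at least `c` of the functions `f i`, `i < N`): `rel_comp` with the nodes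
  `Fin (N + 1) × Fin (c + 1)` and the edges `(i, j) → (i + 1, j)` (true), `(i, j) → (i + 1, j + 1)`
  (`f i`), all others false; `(i, j)` is reachable from `(0, 0)` iff
  `j ≤ #{i' < i | f i' X}`.
-/

namespace NotI

open NotG Finset Classical

variable {E : Type}

/-- on the inputs in `𝒳` the function `f` agrees with a network with at most `B ^ a` states -/
def Rel (𝒳 : Set (Set E)) (B a : ℕ) (f : Set E → Prop) : Prop :=
  ∃ g : Set E → Prop, ByCo (B ^ a) g ∧ ∀ X ∈ 𝒳, (f X ↔ g X)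

theorem Rel.congr {𝒳 : Set (Set E)} {B a : ℕ} {f f' : Set E → Prop} (h : ∀ X ∈ 𝒳, (f X ↔ f' X))
    (hf : Rel 𝒳 B a f) : Rel 𝒳 B a f' := by
  obtain ⟨g, hg, hX⟩ := hf
  exact ⟨g, hg, fun X hx => (h X hx).symm.trans (hX X hx)⟩

theorem Rel.mono {𝒳 : Set (Set E)} {B a a' : ℕ} (hB : 2 ≤ B) (h : a ≤ a') {f : Set E → Prop}
    (hf : Rel 𝒳 B a f) : Rel 𝒳 B a' f := by
  obtain ⟨g, hg, hX⟩ := hf
  exact ⟨g, byCo_pad (Nat.pow_le_pow_right (by omega) h) hg, hX⟩

theorem rel_true {𝒳 : Set (Set E)} {B : ℕ} (hB : 2 ≤ B) : Rel 𝒳 B 1 (fun _ => True) :=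
  ⟨fun _ => True, byCo_true (by rw [pow_one]; omega), fun _ _ => Iff.rfl⟩

theorem rel_false {𝒳 : Set (Set E)} {B : ℕ} (hB : 2 ≤ B) : Rel 𝒳 B 1 (fun _ => False) :=
  ⟨fun _ => False, byCo_false (by rw [pow_one]; omega), fun _ _ => Iff.rfl⟩

theorem rel_lit {𝒳 : Set (Set E)} {B : ℕ} (hB : 2 ≤ B) (e : E) : Rel 𝒳 B 1 (fun X => e ∉ X) :=
  ⟨fun X => e ∉ X, byCo_lit (by rw [pow_one]; omega) e, fun _ _ => Iff.rfl⟩

theorem rel_and {𝒳 : Set (Set E)} {B a : ℕ} (hB : 2 ≤ B) {f g : Set E → Prop} (hf : Rel 𝒳 B a f)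
    (hg : Rel 𝒳 B a g) : Rel 𝒳 B (a + 1) (fun X => f X ∧ g X) := by
  obtain ⟨f', hf', hfX⟩ := hf
  obtain ⟨g', hg', hgX⟩ := hg
  refine ⟨fun X => f' X ∧ g' X, byCo_pad ?_ (byCo_and hf' hg'), fun X hX => ?_⟩
  · rw [pow_succ, ← Nat.mul_two]
    exact Nat.mul_le_mul_left _ hB
  · exact and_congr (hfX X hX) (hgX X hX)

theorem rel_comp {𝒳 : Set (Set E)} {B a b : ℕ} (hB : 2 ≤ B) {P : Type} [Fintype P]
    (hP : Fintype.card P ≤ B ^ b) {f : P → P → Set E → Prop} (hf : ∀ x y, Rel 𝒳 B a (f x y))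
    (p q : P) :
    Rel 𝒳 B (2 * b + a + 1) (fun X => Relation.ReflTransGen (fun x y => f x y X) p q) := by
  choose g hg hgX using hf
  refine ⟨_, byCo_pad ?_ (byCo_comp hg p q), fun X hX => ?_⟩
  · have hB1 : 1 ≤ B := by omega
    have h1 : Fintype.card P ≤ B ^ (2 * b + a) :=
      hP.trans (Nat.pow_le_pow_right hB1 (by omega))
    have h2 : Fintype.card P ^ 2 * B ^ a ≤ B ^ (2 * b + a) := by
      rw [pow_add]
      refine Nat.mul_le_mul_right _ ?_
      calc Fintype.card P ^ 2 ≤ (B ^ b) ^ 2 := Nat.pow_le_pow_left hP 2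
        _ = B ^ (2 * b) := by rw [← pow_mul, Nat.mul_comm]
    calc Fintype.card P + Fintype.card P ^ 2 * B ^ a ≤ B ^ (2 * b + a) + B ^ (2 * b + a) :=
          Nat.add_le_add h1 h2
      _ = B ^ (2 * b + a) * 2 := (Nat.mul_two _).symm
      _ ≤ B ^ (2 * b + a) * B := Nat.mul_le_mul_left _ hB
      _ = B ^ (2 * b + a + 1) := (pow_succ _ _).symm
  · have h1 : (fun x y => f x y X) = fun x y => g x y X := by
      funext x y
      exact propext (hgX x y X hX)
    show Relation.ReflTransGen (fun x y => f x y X) p q ↔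
      Relation.ReflTransGen (fun x y => g x y X) p q
    rw [h1]

namespace PolyAux

/-- the number of the first `i` functions which are true -/
noncomputable def cnt {N : ℕ} (f : Fin N → Set E → Prop) (X : Set E) (i : ℕ) : ℕ :=
  (univ.filter (fun k : Fin N => k.val < i ∧ f k X)).card

theorem cnt_zero {N : ℕ} (f : Fin N → Set E → Prop) (X : Set E) : cnt f X 0 = 0 := by
  unfold cnt
  rw [card_eq_zero, filter_eq_empty_iff]
  rintro k _ ⟨h, _⟩
  omega

theorem cnt_top {N : ℕ} (f : Fin N → Set E → Prop) (X : Set E) :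
    cnt f X N = (univ.filter (fun i => f i X)).card := by
  unfold cnt
  congr 1
  ext k
  simp

theorem cnt_succ_of {N : ℕ} (f : Fin N → Set E → Prop) (X : Set E) {i : ℕ} (hi : i < N)
    (h : f ⟨i, hi⟩ X) : cnt f X (i + 1) = cnt f X i + 1 := by
  unfold cnt
  have h1 : (univ.filter (fun k : Fin N => k.val < i + 1 ∧ f k X)) =
      insert ⟨i, hi⟩ (univ.filter (fun k : Fin N => k.val < i ∧ f k X)) := by
    ext k
    simp only [mem_filter, mem_univ, true_and, mem_insert]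
    constructor
    · rintro ⟨h1, h2⟩
      rcases Nat.lt_succ_iff_lt_or_eq.1 h1 with h3 | h3
      · exact Or.inr ⟨h3, h2⟩
      · exact Or.inl (Fin.ext h3)
    · rintro (h1 | ⟨h1, h2⟩)
      · subst h1
        exact ⟨Nat.lt_succ_self i, h⟩
      · exact ⟨Nat.lt_succ_of_lt h1, h2⟩
  rw [h1, card_insert_of_notMem]
  simp

theorem cnt_succ_not {N : ℕ} (f : Fin N → Set E → Prop) (X : Set E) {i : ℕ} (hi : i < N)
    (h : ¬ f ⟨i, hi⟩ X) : cnt f X (i + 1) = cnt f X i := by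
  unfold cnt
  congr 1
  ext k
  simp only [mem_filter, mem_univ, true_and]
  constructor
  · rintro ⟨h1, h2⟩
    rcases Nat.lt_succ_iff_lt_or_eq.1 h1 with h3 | h3
    · exact ⟨h3, h2⟩
    · have h4 : k = ⟨i, hi⟩ := Fin.ext h3
      subst h4
      exact absurd h2 h
  · rintro ⟨h1, h2⟩
    exact ⟨Nat.lt_succ_of_lt h1, h2⟩

theorem cnt_le_succ {N : ℕ} (f : Fin N → Set E → Prop) (X : Set E) (i : ℕ) :
    cnt f X i ≤ cnt f X (i + 1) := by
  unfold cnt
  refine card_le_card fun k hk => ?_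
  simp only [mem_filter, mem_univ, true_and] at hk ⊢
  exact ⟨Nat.lt_succ_of_lt hk.1, hk.2⟩

/-- the function of an edge of the grid -/
def edge {N : ℕ} (f : Fin N → Set E → Prop) {c : ℕ} (x y : Fin (N + 1) × Fin (c + 1))
    (X : Set E) : Prop :=
  y.1.val = x.1.val + 1 ∧ (y.2.val = x.2.val ∨
    (y.2.val = x.2.val + 1 ∧ ∃ h : x.1.val < N, f ⟨x.1.val, h⟩ X))

theorem sound {N : ℕ} (f : Fin N → Set E → Prop) {c : ℕ} (X : Set E)
    {x y : Fin (N + 1) × Fin (c + 1)} (h : Relation.ReflTransGen (fun x y => edge f x y X) x y)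
    (hx : x.2.val ≤ cnt f X x.1.val) : y.2.val ≤ cnt f X y.1.val := by
  induction h with
  | refl => exact hx
  | tail _ h2 ih =>
    obtain ⟨h3, h4⟩ := h2
    rw [h3]
    rcases h4 with h4 | ⟨h4, h5, h6⟩
    · rw [h4]
      exact ih.trans (cnt_le_succ f X _)
    · rw [h4, cnt_succ_of f X h5 h6]
      exact Nat.succ_le_succ ih

theorem complete {N : ℕ} (f : Fin N → Set E → Prop) {c : ℕ} (X : Set E) (i : ℕ)
    (hi : i < N + 1) (j : ℕ) (hj : j < c + 1) (h : j ≤ cnt f X i) :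
    Relation.ReflTransGen (fun x y => edge f (c := c) x y X) (0, 0) (⟨i, hi⟩, ⟨j, hj⟩) := by
  induction i generalizing j with
  | zero =>
    rw [cnt_zero] at h
    have h1 : j = 0 := Nat.le_zero.1 h
    subst h1
    exact Relation.ReflTransGen.refl
  | succ i ih =>
    have hi' : i < N := Nat.lt_of_succ_lt_succ hi
    by_cases hji : j ≤ cnt f X i
    · exact (ih (Nat.lt_succ_of_lt hi') j hj hji).tail ⟨rfl, Or.inl rfl⟩
    · by_cases hf : f ⟨i, hi'⟩ X
      · rw [cnt_succ_of f X hi' hf] at h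
        obtain ⟨j', rfl⟩ : ∃ j', j = j' + 1 := ⟨j - 1, by omega⟩
        exact (ih (Nat.lt_succ_of_lt hi') j' (by omega) (by omega)).tail
          ⟨rfl, Or.inr ⟨rfl, hi', hf⟩⟩
      · rw [cnt_succ_not f X hi' hf] at h
        exact absurd h hji

end PolyAux

open PolyAux in
/-- thresholds -/
theorem rel_thr {𝒳 : Set (Set E)} {B a N : ℕ} (hB : 2 ≤ B) (hN : N + 1 ≤ B)
    {f : Fin N → Set E → Prop} (hf : ∀ i, Rel 𝒳 B a (f i)) {c : ℕ} (hc : c + 1 ≤ B) :
    Rel 𝒳 B (a + 6) (fun X => c ≤ (univ.filter (fun i => f i X)).card) := by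
  have hP : Fintype.card (Fin (N + 1) × Fin (c + 1)) ≤ B ^ 2 := by
    rw [Fintype.card_prod, Fintype.card_fin, Fintype.card_fin, sq]
    exact Nat.mul_le_mul hN hc
  have hE : ∀ x y : Fin (N + 1) × Fin (c + 1), Rel 𝒳 B (a + 1) (edge f x y) := by
    intro x y
    by_cases h1 : y.1.val = x.1.val + 1
    · by_cases h2 : y.2.val = x.2.val
      · refine Rel.congr (fun X _ => ?_) (Rel.mono hB (by omega) (rel_true hB))
        exact ⟨fun _ => ⟨h1, Or.inl h2⟩, fun _ => trivial⟩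
      · by_cases h3 : y.2.val = x.2.val + 1
        · have h4 : x.1.val < N := by
            have := y.1.isLt
            omega
          refine Rel.congr (fun X _ => ?_) (Rel.mono hB (by omega) (hf ⟨x.1.val, h4⟩))
          constructor
          · intro h5
            exact ⟨h1, Or.inr ⟨h3, h4, h5⟩⟩
          · rintro ⟨_, h5 | ⟨_, _, h5⟩⟩
            · exact absurd h5 h2
            · exact h5
        · refine Rel.congr (fun X _ => ?_) (Rel.mono hB (by omega) (rel_false hB))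
          refine ⟨fun h => h.elim, ?_⟩
          rintro ⟨_, h5 | ⟨h5, _⟩⟩
          · exact h2 h5
          · exact h3 h5
    · refine Rel.congr (fun X _ => ?_) (Rel.mono hB (by omega) (rel_false hB))
      exact ⟨fun h => h.elim, fun h => h1 h.1⟩
  have h := rel_comp hB hP hE (0, 0) (⟨N, Nat.lt_succ_self N⟩, ⟨c, Nat.lt_succ_self c⟩)
  have h6 : 2 * 2 + (a + 1) + 1 = a + 6 := by omega
  rw [h6] at h
  refine Rel.congr (fun X _ => ?_) h
  rw [← cnt_top f X]
  constructor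
  · intro h1
    exact sound f X h1 (Nat.zero_le _)
  · intro h1
    exact complete f X N _ c _ h1

end NotI
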