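import Pool.Agent.Lib.NotI.Poly

/-!
# Module NotI.Search (MP_e46137_lc): finding the number of ones with few negations

`count X` is the number of variables which are `0` on `X` (`(univ.filter (fun e => e ∉ X)).card`).
* `byCo_count`: `c ≤ count X` is computed by a network with `B ^ 7` states: `rel_thr` with
  `𝒳 = univ` and the functions `e ∉ X` (through `Fintype.equivFin E`), `rel_lit`.
* `rel_posLit`: on the inputs with `count X = a`, `e ∈ X` iff at least `a` of the variables other
  than `e` are `0` (`rel_thr` with `f i = (e_i ∉ X)` for `e_i ≠ e` and `False` for `e_i = e`).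
* `search`: induction on `ks`. For `ks = k :: ks'`, `W' = ∏ (ks' + 1)`: ask `lo + (i + 1) * W' ≤
  count X` for `i < k`; if `j` of the answers are true, continue with `lo + j * W'`: for `lo ≤ count X
  < lo + (k + 1) * W'` exactly the answers `i < (count X - lo) / W'` are true, so `j =
  (count X - lo) / W' ≤ k` and `lo + j W' ≤ count X < lo + (j + 1) W'`.
-/

namespace NotI

open NotG Finset Classical

variable {E : Type} [Fintype E]

namespace SearchAux

theorem pow78 {B m : ℕ} (hB : 2 ≤ B) (hm : B ^ 8 ≤ m) : B ^ 7 ≤ m :=
  (Nat.pow_le_pow_right (by omega) (by norm_num)).trans hm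

theorem two_le {B m : ℕ} (hB : 2 ≤ B) (hm : B ^ 8 ≤ m) : 2 ≤ m :=
  calc 2 = 2 ^ 1 := rfl
    _ ≤ 2 ^ 8 := Nat.pow_le_pow_right (by norm_num) (by norm_num)
    _ ≤ B ^ 8 := Nat.pow_le_pow_left hB 8
    _ ≤ m := hm

theorem card_fin_eq (p : E → Prop)
    (d1 : DecidablePred fun i : Fin (Fintype.card E) => p ((Fintype.equivFin E).symm i))
    (d2 : DecidablePred p) :
    (univ.filter (fun i : Fin (Fintype.card E) => p ((Fintype.equivFin E).symm i))).card =
      (univ.filter (fun e : E => p e)).card := by
  refine Finset.card_bij (fun i _ => (Fintype.equivFin E).symm i) ?_ ?_ ?_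
  · intro i hi
    rw [mem_filter] at hi ⊢
    exact ⟨mem_univ _, hi.2⟩
  · intro i _ j _ h
    exact (Fintype.equivFin E).symm.injective h
  · intro e he
    rw [mem_filter] at he
    refine ⟨Fintype.equivFin E e, ?_, by simp⟩
    rw [mem_filter]
    refine ⟨mem_univ _, ?_⟩
    rw [Equiv.symm_apply_apply]
    exact he.2

theorem count_le (X : Set E) : (univ.filter (fun e => e ∉ X)).card ≤ Fintype.card E :=
  card_filter_le _ _

theorem card_erase_eq (X : Set E) (e : E) (d : DecidablePred fun e' => e' ∉ X ∧ e' ≠ e) :
    (univ.filter (fun e' : E => e' ∉ X ∧ e' ≠ e)).card =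
      ((univ.filter (fun e => e ∉ X)).erase e).card := by
  congr 1
  ext e'
  rw [mem_filter, mem_erase, mem_filter]
  tauto

theorem card_fin_lt {k q : ℕ} (h : q ≤ k) :
    (univ.filter (fun i : Fin k => (i : ℕ) < q)).card = q := by
  rw [card_filter, Fin.sum_univ_eq_sum_range (fun i => if i < q then 1 else 0) k, ← card_filter]
  have h1 : (range k).filter (fun i => i < q) = range q := by
    ext i
    rw [mem_filter, mem_range, mem_range]
    omega
  rw [h1, card_range]

end SearchAux

open SearchAux

theorem byCo_count {B : ℕ} (hB : 2 ≤ B) (hE : Fintype.card E + 1 ≤ B) {c : ℕ} (hc : c + 1 ≤ B) :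
    ByCo (B ^ 7) (fun X : Set E => c ≤ (univ.filter (fun e => e ∉ X)).card) := by
  have h := rel_thr (𝒳 := (Set.univ : Set (Set E))) (a := 1) hB hE
    (f := fun i X => (Fintype.equivFin E).symm i ∉ X) (fun i => rel_lit hB _) hc
  obtain ⟨g, hg, hgX⟩ := h
  have h1 : (fun X : Set E => c ≤ (univ.filter (fun e => e ∉ X)).card) = g := by
    funext X
    apply propext
    rw [← hgX X (Set.mem_univ X)]
    beta_reduce
    have h2 : (univ.filter (fun e => e ∉ X)).card =
        (univ.filter (fun i : Fin (Fintype.card E) => (Fintype.equivFin E).symm i ∉ X)).card := by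
      symm
      convert card_fin_eq (fun e => e ∉ X) (fun _ => Classical.propDecidable _)
        (fun _ => Classical.propDecidable _)
    constructor
    · intro h3
      rw [h2] at h3
      convert h3
    · intro h3
      rw [h2]
      convert h3
  rw [h1]
  exact hg

theorem rel_posLit {B : ℕ} (hB : 2 ≤ B) (hE : Fintype.card E + 1 ≤ B) (a : ℕ) (e : E) :
    Rel {X : Set E | (univ.filter (fun e => e ∉ X)).card = a} B 7 (fun X => e ∈ X) := by
  by_cases ha : a + 1 ≤ B
  · have h := rel_thr (𝒳 := {X : Set E | (univ.filter (fun e => e ∉ X)).card = a}) (a := 1) hB hE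
      (f := fun i X => (Fintype.equivFin E).symm i ∉ X ∧ (Fintype.equivFin E).symm i ≠ e)
      (fun i => by
        by_cases hi : (Fintype.equivFin E).symm i = e
        · refine Rel.congr ?_ (rel_false hB)
          intro X _
          simp [hi]
        · refine Rel.congr ?_ (rel_lit hB ((Fintype.equivFin E).symm i))
          intro X _
          simp [hi]) ha
    refine Rel.congr ?_ h
    intro X hX
    rw [card_fin_eq (fun e' => e' ∉ X ∧ e' ≠ e) (fun _ => Classical.propDecidable _)
      (fun _ => Classical.propDecidable _),
      card_erase_eq]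
    have hX' : (univ.filter (fun e => e ∉ X)).card = a := hX
    constructor
    · intro h3
      by_contra h4
      have h5 : e ∈ univ.filter (fun e => e ∉ X) := by
        rw [mem_filter]
        exact ⟨mem_univ _, h4⟩
      have h6 := card_erase_lt_of_mem h5
      omega
    · intro h3
      have h5 : e ∉ univ.filter (fun e => e ∉ X) := by
        rw [mem_filter]
        exact fun h => h.2 h3
      rw [erase_eq_of_notMem h5, hX']
  · refine Rel.mono hB (by norm_num) (Rel.congr ?_ (rel_false (B := B) hB))
    intro X hX
    exfalso
    have hX' : (univ.filter (fun e => e ∉ X)).card = a := hX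
    have := count_le X
    omega

theorem search {B m : ℕ} (hB : 2 ≤ B) (hE : Fintype.card E + 1 ≤ B) (hm : B ^ 8 ≤ m)
    (F : ℕ → Set E → Prop) (hF : ∀ a, ByCo m (F a)) (ks : List ℕ) (lo : ℕ) :
    ∃ f : Set E → Prop, Adaptive (ByCo m) ks f ∧
      ∀ X, lo ≤ (univ.filter (fun e => e ∉ X)).card →
        (univ.filter (fun e => e ∉ X)).card < lo + (ks.map (· + 1)).prod →
        (f X ↔ F (univ.filter (fun e => e ∉ X)).card X) := by
  induction ks generalizing lo with
  | nil =>
    refine ⟨F lo, Adaptive.answer (hF lo), ?_⟩
    intro X h1 h2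
    rw [List.map_nil, List.prod_nil] at h2
    have h3 : (univ.filter (fun e => e ∉ X)).card = lo := by omega
    rw [h3]
  | cons k ks ih =>
    choose fs hfs1 hfs2 using ih
    set W : ℕ := (ks.map (· + 1)).prod with hW
    have hW1 : 1 ≤ W := by
      rw [hW]
      apply List.one_le_prod_of_one_le
      intro x hx
      obtain ⟨y, _, rfl⟩ := List.mem_map.1 hx
      omega
    refine ⟨_, Adaptive.ask
      (fun (i : Fin k) X => lo + ((i : ℕ) + 1) * W ≤ (univ.filter (fun e => e ∉ X)).card)
      (fun ans => fs (lo + (univ.filter (fun i => ans i)).card * W)) ?_ (fun _ => hfs1 _), ?_⟩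
    · intro i
      by_cases hc : lo + ((i : ℕ) + 1) * W + 1 ≤ B
      · exact byCo_pad (pow78 hB hm) (byCo_count hB hE hc)
      · have h1 : (fun X : Set E => lo + ((i : ℕ) + 1) * W ≤ (univ.filter (fun e => e ∉ X)).card) =
            fun _ => False := by
          funext X
          apply propext
          have := count_le X
          constructor
          · intro h
            omega
          · exact False.elim
        rw [h1]
        exact byCo_false (two_le hB hm)
    · intro X h1 h2
      rw [List.map_cons, List.prod_cons, ← hW] at h2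
      set cn := (univ.filter (fun e => e ∉ X)).card with hcn
      have hq : (cn - lo) / W ≤ k := by
        apply Nat.lt_succ_iff.1
        rw [Nat.div_lt_iff_lt_mul (by omega)]
        have : (k + 1) * W = k.succ * W := rfl
        omega
      have h3 : ∀ d : DecidablePred (fun i : Fin k => lo + ((i : ℕ) + 1) * W ≤ cn),
          (@Finset.filter (Fin k) (fun i : Fin k => lo + ((i : ℕ) + 1) * W ≤ cn) d univ).card =
          (cn - lo) / W := by
        intro d
        rw [← card_fin_lt hq]
        congr 1
        refine filter_congr fun i _ => ?_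
        have h4 : (i : ℕ) + 1 ≤ (cn - lo) / W ↔ ((i : ℕ) + 1) * W ≤ cn - lo :=
          Nat.le_div_iff_mul_le (by omega)
        constructor
        · intro h
          have := h4.2 (by omega)
          omega
        · intro h
          have := h4.1 (by omega)
          omega
      beta_reduce
      rw [h3]
      have h5 : (cn - lo) / W * W ≤ cn - lo := Nat.div_mul_le_self _ _
      have h6 : cn - lo < ((cn - lo) / W + 1) * W := by
        have := Nat.lt_div_mul_add (a := cn - lo) (b := W) (by omega)
        rw [Nat.add_mul, Nat.one_mul]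
        exact this
      rw [Nat.add_mul, Nat.one_mul] at h6
      exact hfs2 _ X (by omega) (by omega)

end NotI
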