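import Pool.Agent.Lib.NotG.Stmt

/-!
# NotI.Stmt (MP_e46137_lc): nondeterministic networks which certify unreachability

The definitions of the statement about the number of negations in the theorem of Immerman and
Szelepcsényi, besides those of `NotG.Stmt`.
-/

namespace NotI

open Pool.Agent.Lib.Pe46137 Pool.Agent.Lib.Pe46137X MonSize NotG

/-- A nondeterministic network over variables indexed by `E`, with set of states `W`: a directed
graph on `W` with two distinguished states, whose contacts are permanently closed (`free`) or labelled
by a negated variable (`lab e`, closed when the variable `e` is `0`). Any pair of states may carry any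
set of contacts; contacts are traversed from the first to the second state only. -/
structure CoNet (E W : Type) where
  source : W
  sink : W
  free : W → W → Prop
  lab : E → W → W → Prop

/-- the network accepts the input `X` (the variables in `X` are `1`, the others are `0`): a directed
walk of closed contacts leads from the source to the sink -/
def CoNet.Accepts {E W : Type} (N : CoNet E W) (X : Set E) : Prop :=
  Relation.ReflTransGen (fun v w => N.free v w ∨ ∃ e, e ∉ X ∧ N.lab e v w) N.source N.sink

/-- the class of the functions computed by a nondeterministic network with `m` states -/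
def ByCo {E : Type} (m : ℕ) (f : Set E → Prop) : Prop :=
  ∃ N : CoNet E (Fin m), ∀ X, f X ↔ N.Accepts X

/-- On all inputs whose `L` digraphs belong to `𝒢`, `f` accepts if `t` is unreachable from `s` in all
digraphs, and rejects if one of them has a walk of at most `ℓ` arcs from `s` to `t`. -/
def CertifiesOn {L n : ℕ} (𝒢 : Set (Fin n × Fin n) → Prop) (f : Set (Var L n) → Prop) (s t : Fin n)
    (ℓ : ℕ) : Prop :=
  ∀ X, (∀ i, 𝒢 (graph X i)) →
    ((∀ i, ¬ Reachable (graph X i) s t) → f X) ∧ ((∃ i, Within (graph X i) s t ℓ) → ¬ f X)

/-- least number of states of the nondeterministic networks of an adaptive program which asks `k` of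
them in parallel in each round, for the numbers `k` in the list `ks`, and certifies for all digraphs
in `𝒢` that `t` is unreachable -/
noncomputable def certSize {n : ℕ} (L : ℕ) (𝒢 : Set (Fin n × Fin n) → Prop) (ks : List ℕ)
    (s t : Fin n) (ℓ : ℕ) : ℕ :=
  sInf {m | ∃ f : Set (Var L n) → Prop, Adaptive (ByCo m) ks f ∧ CertifiesOn 𝒢 f s t ℓ}

end NotI
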